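import Mathlib
import Pool.Agent.W203.SP.Stm
import Pool.Agent.W777.ST.AvQ
import Pool.Agent.W777.ST.Exc
set_option autoImplicit false

/-! Elementary properties of the modulated densities. -/

namespace Pool.Agent.W777.SP

open MeasureTheory Set Complex FourierTransform Filter
open scoped ENNReal NNReal RealInnerProductSpace Topology
open Pool.Agent.H153R4 (E BS ST ST_meas ST_vol cube cube_vol cube_meas interp plancherel)
open Pool.Agent.W203.SP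

variable {k : ℕ}

/-- the parameter box -/
abbrev BX (k : ℕ) (b : ℝ) : Set (Fin k → ℝ) := Icc (fun _ => 0) (fun _ => b)

lemma BX_vol {b : ℝ} : volume (BX k b) = ENNReal.ofReal b ^ k := by
  rw [Real.volume_Icc_pi]
  simp

lemma pw_lower {b : ℝ} (hb0 : 0 ≤ b) {s : Fin k → ℝ} (hs : s ∈ BX k b) {z : E k} (hz : ‖z‖ ≤ 1) :
    1 - b ≤ pw 1 s z := by
  unfold pw
  have h1 : ∑ j, s j * z j ^ 2 ≤ ∑ j, b * z j ^ 2 :=
    Finset.sum_le_sum fun j _ => mul_le_mul_of_nonneg_right (hs.2 j) (sq_nonneg _)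
  rw [← Finset.mul_sum] at h1
  have h2 : ∑ j, z j ^ 2 = ‖z‖ ^ 2 := by
    rw [EuclideanSpace.norm_sq_eq]
    simp
  have h3 : ‖z‖ ^ 2 ≤ 1 := pow_le_one₀ (norm_nonneg _) hz
  rw [h2] at h1
  nlinarith

lemma pw_cont (w : ℝ) (s : Fin k → ℝ) : Continuous (pw w s : E k → ℝ) := by
  unfold pw
  fun_prop

lemma ee_norm (x : ℝ) : ‖ee x‖ = 1 := by
  unfold ee
  exact Complex.norm_exp_ofReal_mul_I _

lemma ee_cont : Continuous ee := by
  unfold ee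
  fun_prop

lemma gs_norm (m : ℕ) (t : ℝ) (s : Fin k → ℝ) (f : E k → ℂ) (z : E k) :
    ‖gs m t s f z‖ = 1 / Real.sqrt (pw 1 s z) ^ m * ‖f z‖ := by
  unfold gs
  rw [norm_mul, norm_mul, ee_norm, one_mul, Complex.norm_real, Real.norm_eq_abs,
    abs_of_nonneg (by positivity)]

/-- the lower bound of the square root -/
noncomputable def kp (b : ℝ) : ℝ := Real.sqrt (1 - b)

lemma kp_pos {b : ℝ} (hb : b < 1) : 0 < kp b := Real.sqrt_pos.2 (by linarith)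

lemma gs_le (m : ℕ) (t : ℝ) {b : ℝ} (hb0 : 0 ≤ b) (hb1 : b < 1) {s : Fin k → ℝ} (hs : s ∈ BX k b)
    {f : E k → ℂ} (hf : ∀ z, 1 < ‖z‖ → f z = 0) (z : E k) :
    ‖gs m t s f z‖ ≤ 1 / kp b ^ m * ‖f z‖ := by
  rw [gs_norm]
  have hk := kp_pos hb1
  rcases lt_or_ge 1 ‖z‖ with h | h
  · rw [hf z h, norm_zero, mul_zero, mul_zero]
  · have h1 : kp b ≤ Real.sqrt (pw 1 s z) := Real.sqrt_le_sqrt (pw_lower hb0 hs h)
    gcongr

lemma gs_ele (m : ℕ) (t : ℝ) {b : ℝ} (hb0 : 0 ≤ b) (hb1 : b < 1) {s : Fin k → ℝ} (hs : s ∈ BX k b)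
    {f : E k → ℂ} (hf : ∀ z, 1 < ‖z‖ → f z = 0) (z : E k) :
    ‖gs m t s f z‖ₑ ≤ ENNReal.ofReal (1 / kp b ^ m) * ‖f z‖ₑ := by
  have hk := kp_pos hb1
  rw [← ofReal_norm, ← ofReal_norm, ← ENNReal.ofReal_mul (by positivity)]
  exact ENNReal.ofReal_le_ofReal (gs_le m t hb0 hb1 hs hf z)

lemma gs_zm (m : ℕ) (t : ℝ) (s : Fin k → ℝ) {f : E k → ℂ} (hf : Measurable f) :
    Measurable (gs m t s f) := by
  unfold gs
  have h1 : Measurable fun z : E k => Real.sqrt (pw 1 s z) := (pw_cont 1 s).measurable.sqrt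
  exact ((ee_cont.measurable.comp (h1.const_mul t)).mul
    (Complex.measurable_ofReal.comp (measurable_const.div (h1.pow_const m)))).mul hf

lemma ball_cube {z : E k} (hz : z ∉ cube k) : 1 < ‖z‖ := by
  unfold cube at hz
  simp only [mem_ofPred_eq, not_forall, not_le] at hz
  obtain ⟨j, hj⟩ := hz
  refine lt_of_lt_of_le hj ?_
  have := PiLp.norm_apply_le (p := 2) z j
  rwa [Real.norm_eq_abs] at this

lemma gs_BS (m : ℕ) (t : ℝ) {b M : ℝ} (hb0 : 0 ≤ b) (hb1 : b < 1) {s : Fin k → ℝ}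
    (hs : s ∈ BX k b) {f : E k → ℂ} (hf : DS M f) : BS (1 / kp b ^ m * M) (gs m t s f) := by
  have hk := kp_pos hb1
  refine ⟨gs_zm m t s hf.meas, fun z => ?_, fun z hz => ?_⟩
  · refine (gs_le m t hb0 hb1 hs hf.supp z).trans ?_
    have := hf.bd z
    gcongr
  · unfold gs
    rw [hf.supp z (ball_cube hz), mul_zero]

lemma DS.M0 {M : ℝ} {f : E k → ℂ} (hf : DS M f) : 0 ≤ M := (norm_nonneg _).trans (hf.bd 0)

lemma DS.BS {M : ℝ} {f : E k → ℂ} (hf : DS M f) : BS M f :=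
  ⟨hf.meas, hf.bd, fun z hz => hf.supp z (ball_cube hz)⟩

lemma two_gs (m : ℕ) (t : ℝ) {b M : ℝ} (hb0 : 0 ≤ b) (hb1 : b < 1) {s : Fin k → ℝ}
    (hs : s ∈ BX k b) {f : E k → ℂ} (hf : DS M f) :
    ∫⁻ x, ‖𝓕 (gs m t s f) x‖ₑ ^ 2 ≤ ENNReal.ofReal (1 / kp b ^ m) ^ 2 * ∫⁻ z, ‖f z‖ₑ ^ 2 := by
  have h := gs_BS m t hb0 hb1 hs hf
  rw [plancherel _ h.int (h.memLp 2), ← lintegral_const_mul' _ _
    (ENNReal.pow_ne_top ENNReal.ofReal_ne_top)]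
  apply lintegral_mono
  intro z
  simp only
  rw [← mul_pow]
  exact pow_le_pow_left' (gs_ele m t hb0 hb1 hs hf.supp z) 2

lemma sup_gs (m : ℕ) (t : ℝ) {b : ℝ} (hb0 : 0 ≤ b) (hb1 : b < 1) {s : Fin k → ℝ}
    (hs : s ∈ BX k b) {f : E k → ℂ} (hf : ∀ z, 1 < ‖z‖ → f z = 0) (x : E k) :
    ‖𝓕 (gs m t s f) x‖ₑ ≤ ENNReal.ofReal (1 / kp b ^ m) * ∫⁻ z, ‖f z‖ₑ := by
  rw [Real.fourier_eq, ← lintegral_const_mul' _ _ ENNReal.ofReal_ne_top]
  refine (enorm_integral_le_lintegral_enorm _).trans ?_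
  apply lintegral_mono
  intro z
  simp only
  rw [← ofReal_norm, Circle.norm_smul, ofReal_norm]
  exact gs_ele m t hb0 hb1 hs hf z

/-- joint measurability -/
lemma mF (hm : S_MG) (m : ℕ) {f : E k → ℂ} (hf : Measurable f) :
    Measurable fun q : (ℝ × (Fin k → ℝ)) × E k => 𝓕 (gs m q.1.1 q.1.2 f) q.2 :=
  (hm k m 0 f measurable_zero hf).2

/-- the averaged moments -/
noncomputable def II (m : ℕ) (b q : ℝ) (S : Set ℝ) (f : E k → ℂ) : ℝ≥0∞ :=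
  ∫⁻ s in BX k b, NQ m q S s f

lemma mNQ (hm : S_MG) (m : ℕ) (q : ℝ) (S : Set ℝ) {f : E k → ℂ} (hf : Measurable f) :
    Measurable fun s : Fin k → ℝ => NQ m q S s f := by
  have h : Measurable fun r : (Fin k → ℝ) × ℝ => ∫⁻ x, ‖𝓕 (gs m r.2 r.1 f) x‖ₑ ^ q := by
    have h1 : Measurable fun r : ((Fin k → ℝ) × ℝ) × E k => ‖𝓕 (gs m r.1.2 r.1.1 f) r.2‖ₑ ^ q :=
      ((mF hm m hf).comp (f := fun r : ((Fin k → ℝ) × ℝ) × E k =>
        (((r.1.2, r.1.1) : ℝ × (Fin k → ℝ)), r.2)) (by fun_prop)).enorm.pow_const q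
    exact h1.lintegral_prod_right'
  exact h.lintegral_prod_right'

lemma II_prod (hm : S_MG) (m : ℕ) (b q : ℝ) (S : Set ℝ) {f : E k → ℂ} (hf : Measurable f) :
    II m b q S f = ∫⁻ w : (ℝ × (Fin k → ℝ)) × E k, ‖𝓕 (gs m w.1.1 w.1.2 f) w.2‖ₑ ^ q
      ∂(((volume.restrict S).prod (volume.restrict (BX k b))).prod volume) := by
  have h1 := ((mF hm m hf).enorm.pow_const q)
  rw [lintegral_prod _ h1.aemeasurable, lintegral_prod_symm _ h1.lintegral_prod_right'.aemeasurable]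
  rfl

lemma II_union (m : ℕ) (b q : ℝ) (hm : S_MG) {f : E k → ℂ} (hf : Measurable f) :
    II m b q univ f ≤ II m b q (Icc (-1) 1) f + ∑' j : ℕ, II m b q (ST ((2 ^ j : ℕ) : ℝ)) f := by
  unfold II
  rw [← lintegral_tsum fun j => (mNQ hm m q _ hf).aemeasurable,
    ← lintegral_add_left (mNQ hm m q _ hf)]
  apply lintegral_mono
  intro s
  simp only
  unfold NQ
  refine (lintegral_mono_set Pool.Agent.W777.DL.cover_ST).trans ?_
  refine (lintegral_union_le _ _ _).trans ?_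
  gcongr
  exact lintegral_iUnion_le _ _

lemma NQ_mono (m : ℕ) {b : ℝ} (hb0 : 0 ≤ b) (hb1 : b < 1) {q p : ℝ} (hq : 0 ≤ q) (hqp : q ≤ p)
    {s : Fin k → ℝ} (hs : s ∈ BX k b) (S : Set ℝ) {f : E k → ℂ} (hf : ∀ z, 1 < ‖z‖ → f z = 0)
    (hi : ∫⁻ z, ‖f z‖ₑ ≠ ⊤) :
    NQ m p S s f ≤ (ENNReal.ofReal (1 / kp b ^ m) * ∫⁻ z, ‖f z‖ₑ) ^ (p - q) * NQ m q S s f := by
  have hf1 : (ENNReal.ofReal (1 / kp b ^ m) * ∫⁻ z, ‖f z‖ₑ) ^ (p - q) ≠ ⊤ :=
    ENNReal.rpow_ne_top_of_nonneg (by linarith) (ENNReal.mul_ne_top ENNReal.ofReal_ne_top hi)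
  unfold NQ
  rw [← lintegral_const_mul' _ _ hf1]
  apply lintegral_mono
  intro t
  simp only
  rw [← lintegral_const_mul' _ _ hf1]
  apply lintegral_mono
  intro x
  simp only
  have hsup := sup_gs m t hb0 hb1 hs hf x
  have e1 : ‖𝓕 (gs m t s f) x‖ₑ ^ p = ‖𝓕 (gs m t s f) x‖ₑ ^ (p - q) * ‖𝓕 (gs m t s f) x‖ₑ ^ q := by
    rw [← ENNReal.rpow_add_of_nonneg _ _ (by linarith) hq]
    congr 1
    ring
  rw [e1]
  exact mul_le_mul' (ENNReal.rpow_le_rpow hsup (by linarith)) le_rfl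

end Pool.Agent.W777.SP
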