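import Mathlib
import Pool.Agent.W777.SP.Basic
set_option autoImplicit false

/-! The averaged estimate from `L^q` to `L^q` on the sphere. -/

namespace Pool.Agent.W777.SP

open MeasureTheory Set Complex FourierTransform Filter
open scoped ENNReal NNReal RealInnerProductSpace Topology
open Pool.Agent.H153R4 (E BS ST ST_meas ST_vol cube cube_vol cube_meas interp plancherel)
open Pool.Agent.H438R2.RZ (marc24)
open Pool.Agent.W203.SP

variable {k : ℕ}

lemma DS_ind {M : ℝ} {g : E k → ℂ} (hg : DS M g) {S : Set (E k)} (hS : MeasurableSet S) :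
    DS M (S.indicator g) := by
  refine ⟨hg.meas.indicator hS, fun z => ?_, fun z hz => ?_⟩
  · by_cases h : z ∈ S
    · rw [indicator_of_mem h]
      exact hg.bd z
    · rw [indicator_of_notMem h, norm_zero]
      exact DS.M0 hg
  · by_cases h : z ∈ S
    · rw [indicator_of_mem h]
      exact hg.supp z hz
    · rw [indicator_of_notMem h]

lemma F_split (m : ℕ) (t : ℝ) {b M : ℝ} (hb0 : 0 ≤ b) (hb1 : b < 1) {s : Fin k → ℝ}
    (hs : s ∈ BX k b) {g : E k → ℂ} (hg : DS M g) {S : Set (E k)} (hS : MeasurableSet S)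
    (x : E k) : ‖𝓕 (gs m t s g) x‖ₑ ≤
      ‖𝓕 (gs m t s (S.indicator g)) x‖ₑ + ‖𝓕 (gs m t s (Sᶜ.indicator g)) x‖ₑ := by
  have e : 𝓕 (gs m t s g) x = 𝓕 (gs m t s (S.indicator g)) x +
      𝓕 (gs m t s (Sᶜ.indicator g)) x := by
    rw [Real.fourier_eq, Real.fourier_eq, Real.fourier_eq, ← integral_add]
    · apply integral_congr_ae
      refine ae_of_all _ fun z => ?_
      simp only
      rw [← smul_add]
      congr 1
      unfold gs
      rw [← mul_add]
      congr 1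
      by_cases h : z ∈ S
      · rw [indicator_of_mem h, indicator_of_notMem (by simpa using h), add_zero]
      · rw [indicator_of_notMem h, indicator_of_mem (by simpa using h), zero_add]
    · exact (Real.fourierIntegral_convergent_iff (μ := volume) x).2
        (gs_BS m t hb0 hb1 hs (DS_ind hg hS)).int
    · exact (Real.fourierIntegral_convergent_iff (μ := volume) x).2
        (gs_BS m t hb0 hb1 hs (DS_ind hg hS.compl)).int
  rw [e]
  exact enorm_add_le _ _

/-- one dyadic block -/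
theorem block (h4 : S_M4) (hm : S_MG) {q b e : ℝ} (m : ℕ) (hq2 : 2 < q) (hq4 : q ≤ 4)
    (hb0 : 0 ≤ b) (hb1 : b < 1) (he : 0 < e) :
    ∃ C : ℝ, 0 < C ∧ ∀ T : ℝ, 1 ≤ T → ∀ (M : ℝ) (g : E k → ℂ), DS M g →
      II m b q (ST T) g ≤ ENNReal.ofReal (C * T ^ ((4 - q) / 2 + (1 - k + e) * ((q - 2) / 2))) *
          ∫⁻ z, ‖g z‖ₑ ^ q := by
  obtain ⟨C4, hC4, h⟩ := h4 k m b e hb0 hb1 he
  set c4 : ℝ := C4.toReal + 1 with hc4
  have hc40 : 0 < c4 := by
    have : 0 ≤ C4.toReal := ENNReal.toReal_nonneg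
    linarith
  have hC4le : C4 ≤ ENNReal.ofReal c4 := by
    rw [hc4, ENNReal.ofReal_add ENNReal.toReal_nonneg zero_le_one, ENNReal.ofReal_toReal hC4.ne]
    exact le_self_add
  have hkp := kp_pos hb1
  have hII4 : ∀ T (g : E k → ℂ), ∫⁻ s in BX k b, DM m T s g = II m b 4 (ST T) g := by
    intro T g
    unfold II DM NQ
    simp only [ENNReal.rpow_ofNat]
  have hfour : ∀ T : ℝ, 1 ≤ T → ∀ (M : ℝ) (g : E k → ℂ), DS M g → II m b 4 (ST T) g ≤
      ENNReal.ofReal (c4 * T ^ (1 - k + e)) * ∫⁻ z, ‖g z‖ₑ ^ 4 := by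
    intro T hT M g hg
    rw [← hII4]
    refine (h T hT M g hg).trans ?_
    rw [ENNReal.ofReal_mul hc40.le]
    gcongr
  rcases lt_or_eq_of_le hq4 with hq | hq
  · obtain ⟨C, hC, hmarc⟩ := marc24 q hq2 hq
    set c2 : ℝ := (1 / kp b ^ m) ^ 2 * (2 * (b + 1) ^ k) with hc2
    have hc20 : 0 < c2 := by positivity
    refine ⟨C * c2 ^ ((4 - q) / 2) * c4 ^ ((q - 2) / 2), by positivity, ?_⟩
    intro T hT M g hg
    have hT0 : 0 < T := by linarith
    set ν := (volume.restrict (ST T)).prod (volume.restrict (BX k b)) with hν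
    have key := hmarc (volume : Measure (E k)) (ν.prod (volume : Measure (E k)))
      (fun w => ‖𝓕 (gs m w.1.1 w.1.2 g) w.2‖) (fun z => ‖g z‖) (mF hm m hg.meas).norm
      hg.meas.norm (fun w => norm_nonneg _) (fun z => norm_nonneg _) (c2 * T)
      (c4 * T ^ (1 - k + e)) (by positivity) (by positivity) ?_
    · simp only [ofReal_norm] at key
      rw [II_prod hm m b q (ST T) hg.meas]
      refine key.trans (le_of_eq ?_)
      congr 2
      rw [Real.mul_rpow hc20.le hT0.le, Real.mul_rpow hc40.le (by positivity),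
        ← Real.rpow_mul hT0.le, Real.rpow_add hT0]
      ring
    · intro t ht
      have hS : MeasurableSet {z : E k | t < ‖g z‖} :=
        measurableSet_lt measurable_const hg.meas.norm
      set S := {z : E k | t < ‖g z‖} with hSd
      have hSc : Sᶜ = {z : E k | ‖g z‖ ≤ t} := by
        ext z
        simp [hSd]
      have hgS := DS_ind hg hS
      have hgC := DS_ind hg hS.compl
      refine ⟨fun w => ‖𝓕 (gs m w.1.1 w.1.2 (S.indicator g)) w.2‖ₑ,
        fun w => ‖𝓕 (gs m w.1.1 w.1.2 (Sᶜ.indicator g)) w.2‖ₑ,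
        (mF hm m hgS.meas).enorm, (mF hm m hgC.meas).enorm, ?_, ?_, ?_⟩
      · have hae : ∀ᵐ w ∂(ν.prod (volume : Measure (E k))), w.1.2 ∈ BX k b := by
          have h2 : ν.prod (volume : Measure (E k)) = (((volume : Measure ℝ).prod
              (volume : Measure (Fin k → ℝ))).prod (volume : Measure (E k))).restrict
                ((ST T ×ˢ BX k b) ×ˢ univ) := by
            rw [← Measure.prod_restrict, Measure.restrict_univ, ← Measure.prod_restrict]
          rw [h2]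
          filter_upwards [ae_restrict_mem (((ST_meas T).prod measurableSet_Icc).prod
            MeasurableSet.univ)] with w hw
          exact hw.1.2
        filter_upwards [hae] with w hw
        rw [ofReal_norm]
        exact F_split m _ hb0 hb1 hw hg hS _
      · have e2 : ∫⁻ w, ‖𝓕 (gs m w.1.1 w.1.2 (S.indicator g)) w.2‖ₑ ^ 2
            ∂(ν.prod (volume : Measure (E k))) = II m b 2 (ST T) (S.indicator g) := by
          rw [II_prod hm m b 2 (ST T) hgS.meas]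
          simp only [ENNReal.rpow_ofNat]
          rfl
        rw [e2]
        have e3 : ∫⁻ z, ‖S.indicator g z‖ₑ ^ 2 = ∫⁻ z in S, ENNReal.ofReal ‖g z‖ ^ 2 := by
          rw [← lintegral_indicator hS]
          apply lintegral_congr
          intro z
          by_cases hz : z ∈ S
          · rw [indicator_of_mem hz, indicator_of_mem hz, ofReal_norm]
          · rw [indicator_of_notMem hz, indicator_of_notMem hz]
            simp
        rw [← e3]
        set Y := ∫⁻ z, ‖S.indicator g z‖ₑ ^ 2 with hY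
        have h5 : II m b 2 (ST T) (S.indicator g) ≤ ∫⁻ _ in BX k b, ENNReal.ofReal (2 * T) *
            (ENNReal.ofReal (1 / kp b ^ m) ^ 2 * Y) := by
          unfold II
          apply setLIntegral_mono' measurableSet_Icc
          intro s hs
          unfold NQ
          simp only [ENNReal.rpow_ofNat]
          calc ∫⁻ t in ST T, ∫⁻ x, ‖𝓕 (gs m t s (S.indicator g)) x‖ₑ ^ 2
              ≤ ∫⁻ _ in ST T, ENNReal.ofReal (1 / kp b ^ m) ^ 2 * Y :=
                lintegral_mono fun t => two_gs m t hb0 hb1 hs hgS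
            _ ≤ _ := by
                rw [lintegral_const, Measure.restrict_apply_univ, mul_comm]
                gcongr
                exact ST_vol T hT0.le
        refine h5.trans ?_
        have hval : ENNReal.ofReal (c2 * T) = ENNReal.ofReal (1 / kp b ^ m) ^ 2 *
            (ENNReal.ofReal 2 * ENNReal.ofReal (b + 1) ^ k) * ENNReal.ofReal T := by
          have k1 : (0:ℝ) ≤ b + 1 := by linarith
          rw [ENNReal.ofReal_mul hc20.le, hc2, ENNReal.ofReal_mul (sq_nonneg _),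
            ENNReal.ofReal_mul zero_le_two,
            ENNReal.ofReal_pow (one_div_nonneg.2 (pow_pos hkp m).le) 2,
            ENNReal.ofReal_pow k1 k]
        have k2 : (0:ℝ) ≤ 2 := by norm_num
        rw [lintegral_const, Measure.restrict_apply_univ, BX_vol, hval, ENNReal.ofReal_mul k2]
        have h6 : ENNReal.ofReal b ^ k ≤ ENNReal.ofReal (b + 1) ^ k :=
          pow_le_pow_left' (ENNReal.ofReal_le_ofReal (by linarith)) k
        calc ENNReal.ofReal 2 * ENNReal.ofReal T * (ENNReal.ofReal (1 / kp b ^ m) ^ 2 * Y) *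
              ENNReal.ofReal b ^ k
            ≤ ENNReal.ofReal 2 * ENNReal.ofReal T * (ENNReal.ofReal (1 / kp b ^ m) ^ 2 * Y) *
              ENNReal.ofReal (b + 1) ^ k := by gcongr
          _ = _ := by ring
      · have e2 : ∫⁻ w, ‖𝓕 (gs m w.1.1 w.1.2 (Sᶜ.indicator g)) w.2‖ₑ ^ 4
            ∂(ν.prod (volume : Measure (E k))) = II m b 4 (ST T) (Sᶜ.indicator g) := by
          rw [II_prod hm m b 4 (ST T) hgC.meas]
          simp only [ENNReal.rpow_ofNat]
          rfl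
        rw [e2]
        refine (hfour T hT M _ hgC).trans (le_of_eq ?_)
        congr 1
        rw [← hSc, ← lintegral_indicator hS.compl]
        apply lintegral_congr
        intro z
        by_cases hz : z ∈ Sᶜ
        · rw [indicator_of_mem hz, indicator_of_mem hz, ofReal_norm]
        · rw [indicator_of_notMem hz, indicator_of_notMem hz]
          simp
  · subst hq
    refine ⟨c4, hc40, ?_⟩
    intro T hT M g hg
    have e5 : (4 - 4 : ℝ) / 2 + (1 - k + e) * ((4 - 2) / 2) = 1 - k + e := by ring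
    rw [e5]
    simp only [ENNReal.rpow_ofNat]
    exact hfour T hT M g hg

lemma volBX_lt {b : ℝ} : volume (BX k b) < ⊤ := by
  rw [BX_vol]
  exact ENNReal.pow_lt_top ENNReal.ofReal_lt_top

/-- times in the unit interval -/
lemma small (m : ℕ) {b q : ℝ} (hb0 : 0 ≤ b) (hb1 : b < 1) (hq2 : 2 ≤ q) :
    ∃ C : ℝ≥0∞, C < ⊤ ∧ ∀ (M : ℝ) (g : E k → ℂ), DS M g →
      II m b q (Icc (-1) 1) g ≤ C * ∫⁻ z, ‖g z‖ₑ ^ q := by
  set c : ℝ≥0∞ := ENNReal.ofReal (1 / kp b ^ m) with hc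
  have hct : c ≠ ⊤ := ENNReal.ofReal_ne_top
  refine ⟨volume (BX k b) * (2 * c ^ (q - 2) * c ^ 2 * volume (cube k) ^ (q - 2)), ?_, ?_⟩
  · refine ENNReal.mul_lt_top volBX_lt (ENNReal.mul_lt_top (ENNReal.mul_lt_top
      (ENNReal.mul_lt_top (by norm_num) ?_) (ENNReal.pow_lt_top hct.lt_top)) ?_)
    · exact ENNReal.rpow_lt_top_of_nonneg (by linarith) hct
    · exact ENNReal.rpow_lt_top_of_nonneg (by linarith) (cube_vol k).ne
  intro M g hg
  have hgB := DS.BS hg
  have hi : ∫⁻ z, ‖g z‖ₑ ≠ ⊤ := hgB.int.2.ne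
  have h1 : ∀ s ∈ BX k b, NQ m q (Icc (-1) 1) s g ≤
      (2 * c ^ (q - 2) * c ^ 2 * volume (cube k) ^ (q - 2)) * ∫⁻ z, ‖g z‖ₑ ^ q := by
    intro s hs
    refine (NQ_mono m hb0 hb1 (by norm_num : (0:ℝ) ≤ 2) hq2 hs _ hg.supp hi).trans ?_
    have h2 : NQ m 2 (Icc (-1) 1) s g ≤ 2 * (c ^ 2 * ∫⁻ z, ‖g z‖ₑ ^ (2:ℝ)) := by
      unfold NQ
      simp only [ENNReal.rpow_ofNat]
      calc ∫⁻ t in Icc (-1 : ℝ) 1, ∫⁻ x, ‖𝓕 (gs m t s g) x‖ₑ ^ 2
          ≤ ∫⁻ _ in Icc (-1 : ℝ) 1, c ^ 2 * ∫⁻ z, ‖g z‖ₑ ^ 2 :=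
            lintegral_mono fun t => two_gs m t hb0 hb1 hs hg
        _ = _ := by
            rw [lintegral_const, Measure.restrict_apply_univ, Real.volume_Icc, mul_comm]
            congr 1
            norm_num
    rw [ENNReal.mul_rpow_of_nonneg _ _ (by linarith : 0 ≤ q - 2)]
    have h3 := Pool.Agent.W777.ST.hol (q := q) (a := 2) (by norm_num) hq2 hg.meas hgB.supp
    calc c ^ (q - 2) * (∫⁻ z, ‖g z‖ₑ) ^ (q - 2) * NQ m 2 (Icc (-1) 1) s g
        ≤ c ^ (q - 2) * (∫⁻ z, ‖g z‖ₑ) ^ (q - 2) * (2 * (c ^ 2 * ∫⁻ z, ‖g z‖ₑ ^ (2:ℝ))) :=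
          mul_le_mul' le_rfl h2
      _ = 2 * c ^ (q - 2) * c ^ 2 * ((∫⁻ z, ‖g z‖ₑ) ^ (q - 2) * ∫⁻ z, ‖g z‖ₑ ^ (2:ℝ)) := by ring
      _ ≤ 2 * c ^ (q - 2) * c ^ 2 * (volume (cube k) ^ (q - 2) * ∫⁻ z, ‖g z‖ₑ ^ q) :=
          mul_le_mul' le_rfl h3
      _ = _ := by ring
  unfold II
  refine (setLIntegral_mono' measurableSet_Icc h1).trans (le_of_eq ?_)
  rw [lintegral_const, Measure.restrict_apply_univ]
  ring

/-- bounded functions, `q ≤ 4` -/
theorem low (h4 : S_M4) (hm : S_MG) (m : ℕ) {q b : ℝ} (hk : 2 ≤ k) (hq : 2 + 2 / (k : ℝ) < q)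
    (hq4 : q ≤ 4) (hb0 : 0 ≤ b) (hb1 : b < 1) :
    ∃ C : ℝ≥0∞, C < ⊤ ∧ ∀ (M : ℝ) (g : E k → ℂ), DS M g →
      II m b q univ g ≤ C * ∫⁻ z, ‖g z‖ₑ ^ q := by
  have hk0 : (0:ℝ) < k := by
    have : 0 < k := by omega
    exact_mod_cast this
  have hq2 : 2 < q := by
    have : 0 < 2 / (k : ℝ) := by positivity
    linarith
  have hkq : 2 < k * (q - 2) := by
    have h1 : 2 / (k:ℝ) < q - 2 := by linarith
    rw [div_lt_iff₀ hk0] at h1
    linarith
  set e : ℝ := (k * (q - 2) - 2) / (2 * (q - 2)) with he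
  have hq20 : 0 < q - 2 := by linarith
  have he0 : 0 < e := div_pos (by linarith) (by linarith)
  obtain ⟨C, hC, h⟩ := block (k := k) h4 hm m hq2 hq4 hb0 hb1 he0
  obtain ⟨C1, hC1, h1⟩ := small (k := k) m hb0 hb1 hq2.le
  set κ : ℝ := (4 - q) / 2 + (1 - k + e) * ((q - 2) / 2) with hκ
  have hκ0 : κ < 0 := by
    have e1 : e * (q - 2) = (k * (q - 2) - 2) / 2 := by
      rw [he]
      field_simp
    have e2 : κ = (2 - k * (q - 2) + e * (q - 2)) / 2 := by
      rw [hκ]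
      ring
    rw [e2, e1]
    linarith
  set x : ℝ≥0∞ := ENNReal.ofReal ((2 : ℝ) ^ κ) with hx
  have hx1 : x < 1 := by
    rw [hx, ENNReal.ofReal_lt_one]
    exact Real.rpow_lt_one_of_one_lt_of_neg (by norm_num) hκ0
  have hsum : ∑' j : ℕ, ENNReal.ofReal (C * (((2 ^ j : ℕ) : ℝ)) ^ κ) =
      ENNReal.ofReal C * (1 - x)⁻¹ := by
    rw [← ENNReal.tsum_geometric, ← ENNReal.tsum_mul_left]
    congr 1
    ext j
    rw [ENNReal.ofReal_mul hC.le, hx, ← ENNReal.ofReal_pow (by positivity)]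
    congr 2
    push_cast
    rw [← Real.rpow_natCast, ← Real.rpow_mul (by norm_num), mul_comm, Real.rpow_mul (by norm_num),
      Real.rpow_natCast]
  refine ⟨C1 + ENNReal.ofReal C * (1 - x)⁻¹, ?_, ?_⟩
  · refine ENNReal.add_lt_top.2 ⟨hC1, ENNReal.mul_lt_top ENNReal.ofReal_lt_top ?_⟩
    rw [ENNReal.inv_lt_top]
    exact tsub_pos_of_lt hx1
  intro M g hg
  refine (II_union m b q hm hg.meas).trans ?_
  rw [add_mul]
  apply add_le_add (h1 M g hg)
  rw [← hsum, ← ENNReal.tsum_mul_right]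
  apply ENNReal.tsum_le_tsum
  intro j
  exact h _ (by exact_mod_cast Nat.one_le_two_pow) M g hg

/-- bounded functions, all `q` -/
theorem all_q (h4 : S_M4) (hm : S_MG) (m : ℕ) {q b : ℝ} (hk : 2 ≤ k) (hq : 2 + 2 / (k : ℝ) < q)
    (hb0 : 0 ≤ b) (hb1 : b < 1) :
    ∃ C : ℝ≥0∞, C < ⊤ ∧ ∀ (M : ℝ) (g : E k → ℂ), DS M g →
      II m b q univ g ≤ C * ∫⁻ z, ‖g z‖ₑ ^ q := by
  rcases le_or_gt q 4 with hq4 | hq4
  · exact low h4 hm m hk hq hq4 hb0 hb1
  have hk1 : (1:ℝ) < k := by exact_mod_cast (by omega : 1 < k)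
  have h44 : 2 + 2 / (k : ℝ) < 4 := by
    have : 2 / (k:ℝ) < 2 := by
      rw [div_lt_iff₀ (by linarith)]
      linarith
    linarith
  obtain ⟨C, hC, h⟩ := low (k := k) h4 hm m hk h44 le_rfl hb0 hb1
  set c : ℝ≥0∞ := ENNReal.ofReal (1 / kp b ^ m) with hc
  have hct : c ≠ ⊤ := ENNReal.ofReal_ne_top
  refine ⟨c ^ (q - 4) * (volume (cube k) ^ (q - 4) * C), ?_, ?_⟩
  · exact ENNReal.mul_lt_top (ENNReal.rpow_lt_top_of_nonneg (by linarith) hct)
      (ENNReal.mul_lt_top (ENNReal.rpow_lt_top_of_nonneg (by linarith) (cube_vol k).ne) hC)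
  intro M g hg
  have hgB := DS.BS hg
  have hi : ∫⁻ z, ‖g z‖ₑ ≠ ⊤ := hgB.int.2.ne
  have hf1 : (c * ∫⁻ z, ‖g z‖ₑ) ^ (q - 4) ≠ ⊤ :=
    ENNReal.rpow_ne_top_of_nonneg (by linarith) (ENNReal.mul_ne_top hct hi)
  have h1 : II m b q univ g ≤ (c * ∫⁻ z, ‖g z‖ₑ) ^ (q - 4) * II m b 4 univ g := by
    unfold II
    rw [← lintegral_const_mul' _ _ hf1]
    apply setLIntegral_mono' measurableSet_Icc
    intro s hs
    exact NQ_mono m hb0 hb1 (by norm_num : (0:ℝ) ≤ 4) hq4.le hs _ hg.supp hi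
  refine h1.trans ?_
  rw [ENNReal.mul_rpow_of_nonneg _ _ (by linarith : 0 ≤ q - 4)]
  have h3 := Pool.Agent.W777.ST.hol (q := q) (a := 4) (by norm_num) hq4.le hg.meas hgB.supp
  calc c ^ (q - 4) * (∫⁻ z, ‖g z‖ₑ) ^ (q - 4) * II m b 4 univ g
      ≤ c ^ (q - 4) * (∫⁻ z, ‖g z‖ₑ) ^ (q - 4) * (C * ∫⁻ z, ‖g z‖ₑ ^ (4:ℝ)) :=
        mul_le_mul' le_rfl (h M g hg)
    _ = c ^ (q - 4) * C * ((∫⁻ z, ‖g z‖ₑ) ^ (q - 4) * ∫⁻ z, ‖g z‖ₑ ^ (4:ℝ)) := by ring
    _ ≤ c ^ (q - 4) * C * (volume (cube k) ^ (q - 4) * ∫⁻ z, ‖g z‖ₑ ^ q) := mul_le_mul' le_rfl h3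
    _ = _ := by ring

open Pool.Agent.W777.ST (trc trc_BS trc_le trc_lim hol1)

lemma trc_DS {f : E k → ℂ} (hf : Measurable f) (hs : ∀ z, 1 < ‖z‖ → f z = 0) (j : ℕ) :
    DS (j : ℝ) (trc f j) := by
  have h := trc_BS hf (fun z hz => hs z (ball_cube hz)) j
  refine ⟨h.meas, h.bd, fun z hz => ?_⟩
  have h2 := trc_le f j z
  rw [hs z hz, enorm_zero, nonpos_iff_eq_zero, enorm_eq_zero] at h2
  exact h2

lemma F_lim (m : ℕ) (t : ℝ) {b : ℝ} (hb0 : 0 ≤ b) (hb1 : b < 1) {s : Fin k → ℝ}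
    (hs : s ∈ BX k b) {f : E k → ℂ} (hf : Measurable f) (hsup : ∀ z, 1 < ‖z‖ → f z = 0)
    (hi : Integrable f) (x : E k) :
    Tendsto (fun j => 𝓕 (gs m t s (trc f j)) x) atTop (𝓝 (𝓕 (gs m t s f) x)) := by
  simp only [Real.fourier_eq]
  have hkp := kp_pos hb1
  have hm : ∀ g : E k → ℂ, Measurable g → AEStronglyMeasurable
      (fun z => Real.fourierChar (-⟪z, x⟫) • gs m t s g z) volume := by
    intro g hg
    have h1 := gs_zm m t s hg
    have h2 : Measurable fun z : E k => ((Real.fourierChar (-⟪z, x⟫) : Circle) : ℂ) := by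
      have : Continuous fun z : E k => ((Real.fourierChar (-⟪z, x⟫) : Circle) : ℂ) := by
        fun_prop
      exact this.measurable
    exact (h2.mul h1).aestronglyMeasurable
  refine tendsto_integral_of_dominated_convergence (fun z => 1 / kp b ^ m * ‖f z‖)
    (fun j => hm _ (trc_DS hf hsup j).meas) (hi.norm.const_mul _)
    (fun j => ae_of_all _ fun z => ?_) (ae_of_all _ fun z => ?_)
  · rw [Circle.norm_smul]
    refine (gs_le m t hb0 hb1 hs (trc_DS hf hsup j).supp z).trans ?_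
    have := trc_le f j z
    rw [← ofReal_norm, ← ofReal_norm, ENNReal.ofReal_le_ofReal_iff (norm_nonneg _)] at this
    gcongr
  · apply Tendsto.const_smul
    unfold gs
    exact (trc_lim f z).const_mul _

theorem lq (h4 : S_M4) (hm : S_MG) (m : ℕ) {q b : ℝ} (hk : 2 ≤ k) (hq : 2 + 2 / (k : ℝ) < q)
    (hb0 : 0 ≤ b) (hb1 : b < 1) :
    ∃ C : ℝ≥0∞, 0 < C ∧ C < ⊤ ∧ ∀ f : E k → ℂ, Measurable f → (∀ z, 1 < ‖z‖ → f z = 0) →
      II m b q univ f ≤ C * ∫⁻ z, ‖f z‖ₑ ^ q := by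
  obtain ⟨C, hC, h⟩ := all_q (k := k) h4 hm m hk hq hb0 hb1
  have hk0 : (0:ℝ) < k := by
    have : 0 < k := by omega
    exact_mod_cast this
  have hq2 : 2 < q := by
    have : 0 < 2 / (k : ℝ) := by positivity
    linarith
  refine ⟨C + 1, by simp, ENNReal.add_lt_top.2 ⟨hC, ENNReal.one_lt_top⟩, fun f hf hs => ?_⟩
  by_cases hfin : ∫⁻ z, ‖f z‖ₑ ^ q = ⊤
  · rw [hfin, ENNReal.mul_top (by simp)]
    exact le_top
  have hscube : ∀ z, z ∉ cube k → f z = 0 := fun z hz => hs z (ball_cube hz)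
  have hi : Integrable f := by
    refine ⟨hf.aestronglyMeasurable, ?_⟩
    have h1 := hol1 (q := q) (a := 1) one_pos (by linarith) hf hscube
    simp only [ENNReal.rpow_one] at h1
    refine lt_of_le_of_lt h1 ?_
    refine ENNReal.mul_lt_top (ENNReal.rpow_lt_top_of_nonneg ?_ (cube_vol _).ne)
      (ENNReal.rpow_lt_top_of_nonneg (by positivity) hfin)
    have : 1 / q ≤ 1 := by
      rw [div_le_one (by linarith)]
      linarith
    linarith
  refine le_trans ?_ (mul_le_mul' (le_self_add (b := 1)) le_rfl)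
  set ν := (volume.restrict (univ : Set ℝ)).prod ((volume : Measure (Fin k → ℝ)).restrict (BX k b))
    with hν
  have hae : ∀ᵐ w ∂(ν.prod (volume : Measure (E k))), w.1.2 ∈ BX k b := by
    have h2 : ν.prod (volume : Measure (E k)) = (((volume : Measure ℝ).prod
        (volume : Measure (Fin k → ℝ))).prod (volume : Measure (E k))).restrict
          ((univ ×ˢ BX k b) ×ˢ univ) := by
      rw [← Measure.prod_restrict, Measure.restrict_univ, ← Measure.prod_restrict]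
    rw [h2]
    filter_upwards [ae_restrict_mem ((MeasurableSet.univ.prod measurableSet_Icc).prod
      MeasurableSet.univ)] with w hw
    exact hw.1.2
  have hlim : ∀ᵐ w ∂(ν.prod (volume : Measure (E k))),
      liminf (fun j => ‖𝓕 (gs m w.1.1 w.1.2 (trc f j)) w.2‖ₑ ^ q) atTop =
        ‖𝓕 (gs m w.1.1 w.1.2 f) w.2‖ₑ ^ q := by
    filter_upwards [hae] with w hw
    apply Tendsto.liminf_eq
    exact ((ENNReal.continuous_rpow_const (y := q)).tendsto _).comp
      ((F_lim m w.1.1 hb0 hb1 hw hf hs hi w.2).enorm)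
  rw [II_prod hm m b q univ hf]
  calc ∫⁻ w, ‖𝓕 (gs m w.1.1 w.1.2 f) w.2‖ₑ ^ q ∂(ν.prod volume)
      = ∫⁻ w, liminf (fun j => ‖𝓕 (gs m w.1.1 w.1.2 (trc f j)) w.2‖ₑ ^ q) atTop
          ∂(ν.prod volume) := (lintegral_congr_ae hlim).symm
    _ ≤ liminf (fun j => ∫⁻ w, ‖𝓕 (gs m w.1.1 w.1.2 (trc f j)) w.2‖ₑ ^ q
          ∂(ν.prod volume)) atTop :=
        lintegral_liminf_le fun j => (mF hm m (trc_DS hf hs j).meas).enorm.pow_const q
    _ ≤ C * ∫⁻ z, ‖f z‖ₑ ^ q := by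
        refine liminf_le_of_le (by isBoundedDefault) fun c hc => ?_
        obtain ⟨j, hj⟩ := hc.exists
        refine hj.trans ?_
        rw [← II_prod hm m b q univ (trc_DS hf hs j).meas]
        refine (h _ _ (trc_DS hf hs j)).trans ?_
        gcongr with z
        exact trc_le f j z

theorem t_LQ (h : S_M4) (hm : S_MG) : S_LQ := by
  intro k q b hk hq hb0 hb1
  exact lq h hm 1 hk hq hb0 hb1

end Pool.Agent.W777.SP
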