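import Mathlib
import Pool.Agent.W777.SP.Basic
import Pool.Agent.W777.DL.Sob
set_option autoImplicit false

/-! Local constancy in the dilation parameters. -/

namespace Pool.Agent.W777.SP

open MeasureTheory Set Complex FourierTransform Filter
open scoped ENNReal NNReal RealInnerProductSpace Topology
open Pool.Agent.H153R4 (E BS ST ST_meas ST_vol cube cube_vol cube_meas interp plancherel)
open Pool.Agent.W777.DL (sob cS cS_lt add_pow4)
open Pool.Agent.W203.SP

variable {k : ℕ}

/-- multiplication by the square of a coordinate -/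
noncomputable def gj (j : Fin k) (f : E k → ℂ) (z : E k) : ℂ := ((z j ^ 2 : ℝ) : ℂ) * f z

/-- multiplication by the squares of several coordinates -/
noncomputable def gS (S : Finset (Fin k)) (f : E k → ℂ) (z : E k) : ℂ :=
  ((∏ j ∈ S, z j ^ 2 : ℝ) : ℂ) * f z

lemma gS_empty (g : E k → ℂ) : gS ∅ g = g := by
  ext z
  simp [gS]

lemma gS_insert {j : Fin k} {S : Finset (Fin k)} (hj : j ∉ S) (g : E k → ℂ) :
    gS (insert j S) g = gS S (gj j g) := by
  ext z
  unfold gS gj
  rw [Finset.prod_insert hj]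
  push_cast
  ring

lemma gS_sing (j : Fin k) (g : E k → ℂ) : gS {j} g = gj j g := by
  ext z
  simp [gS, gj]

lemma gS_meas (S : Finset (Fin k)) {g : E k → ℂ} (hg : Measurable g) : Measurable (gS S g) := by
  unfold gS
  have h1 : Measurable fun z : E k => ∏ j ∈ S, z j ^ 2 :=
    Finset.measurable_prod _ fun j _ => (by fun_prop : Measurable fun z : E k => z j ^ 2)
  exact (Complex.measurable_ofReal.comp h1).mul hg

lemma gS_norm (S : Finset (Fin k)) {g : E k → ℂ} (hg : ∀ z, 1 < ‖z‖ → g z = 0) (z : E k) :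
    ‖gS S g z‖ ≤ ‖g z‖ := by
  unfold gS
  rcases lt_or_ge 1 ‖z‖ with hz | hz
  · rw [hg z hz, mul_zero]
  · have h0 : 0 ≤ ∏ j ∈ S, z j ^ 2 := Finset.prod_nonneg fun j _ => sq_nonneg _
    rw [norm_mul, Complex.norm_real, Real.norm_eq_abs, abs_of_nonneg h0]
    have h2 : ∏ j ∈ S, z j ^ 2 ≤ 1 := by
      refine Finset.prod_le_one (fun j _ => sq_nonneg _) fun j _ => ?_
      rw [← sq_abs]
      refine pow_le_one₀ (abs_nonneg _) ?_
      have := PiLp.norm_apply_le (p := 2) z j
      rw [Real.norm_eq_abs] at this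
      linarith
    calc (∏ j ∈ S, z j ^ 2) * ‖g z‖ ≤ 1 * ‖g z‖ := by gcongr
      _ = ‖g z‖ := one_mul _

lemma gS_DS (S : Finset (Fin k)) {M : ℝ} {g : E k → ℂ} (hg : DS M g) : DS M (gS S g) := by
  refine ⟨gS_meas S hg.meas, fun z => (gS_norm S hg.supp z).trans (hg.bd z), fun z hz => ?_⟩
  unfold gS
  rw [hg.supp z hz, mul_zero]

lemma gj_DS (j : Fin k) {M : ℝ} {g : E k → ℂ} (hg : DS M g) : DS M (gj j g) := by
  rw [← gS_sing]
  exact gS_DS _ hg

lemma gS_int (S : Finset (Fin k)) {M : ℝ} {g : E k → ℂ} (hg : DS M g) :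
    ∫⁻ z, ‖gS S g z‖ₑ ^ 4 ≤ ∫⁻ z, ‖g z‖ₑ ^ 4 := by
  apply lintegral_mono
  intro z
  apply pow_le_pow_left'
  rw [← ofReal_norm, ← ofReal_norm]
  exact ENNReal.ofReal_le_ofReal (gS_norm S hg.supp z)

/-- the operator -/
noncomputable def u (m : ℕ) (t : ℝ) (s : Fin k → ℝ) (f : E k → ℂ) (x : E k) : ℂ :=
  𝓕 (gs m t s f) x

/-- derivative of the modulated function -/
noncomputable def gd (m : ℕ) (t : ℝ) (s : Fin k → ℝ) (j : Fin k) (f : E k → ℂ) (z : E k) : ℂ :=
  (-((Real.pi * t : ℝ) : ℂ) * I) * gs (m + 1) t s (gj j f) z +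
    ((m / 2 : ℝ) : ℂ) * gs (m + 2) t s (gj j f) z

lemma pw_deriv (s : Fin k → ℝ) (j : Fin k) (σ : ℝ) (z : E k) :
    HasDerivAt (fun σ => pw 1 (Function.update s j σ) z) (-(z j ^ 2)) σ := by
  unfold pw
  have h1 : ∀ i ∈ (Finset.univ : Finset (Fin k)),
      HasDerivAt (fun σ => Function.update s j σ i * z i ^ 2)
        (if i = j then z i ^ 2 else 0) σ := by
    intro i _
    by_cases hij : i = j
    · subst hij
      simp only [Function.update_self, if_true]
      have := (hasDerivAt_id σ).mul_const (z i ^ 2)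
      exact this.congr_deriv (by simp)
    · simp only [Function.update_of_ne hij, if_neg hij]
      exact hasDerivAt_const _ _
  have h2 := HasDerivAt.fun_sum h1
  rw [Finset.sum_ite_eq' Finset.univ j] at h2
  simp only [Finset.mem_univ, if_true] at h2
  exact h2.const_sub _

lemma gs_deriv (m : ℕ) (t : ℝ) (s : Fin k → ℝ) (j : Fin k) (σ : ℝ) (f : E k → ℂ) (z : E k)
    (hp : f z = 0 ∨ 0 < pw 1 (Function.update s j σ) z) :
    HasDerivAt (fun σ => gs m t (Function.update s j σ) f z)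
      (gd m t (Function.update s j σ) j f z) σ := by
  rcases hp with h | hp
  · have e1 : (fun σ => gs m t (Function.update s j σ) f z) = fun _ => 0 := by
      ext L
      unfold gs
      rw [h, mul_zero]
    have e2 : gd m t (Function.update s j σ) j f z = 0 := by
      unfold gd gs gj
      rw [h]
      simp
    rw [e1, e2]
    exact hasDerivAt_const σ 0
  · have h1 := (pw_deriv s j σ z).sqrt hp.ne'
    set r : ℝ := Real.sqrt (pw 1 (Function.update s j σ) z) with hr
    have hr0 : 0 < r := Real.sqrt_pos.2 hp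
    have h2 : HasDerivAt (fun σ => 1 / Real.sqrt (pw 1 (Function.update s j σ) z) ^ m)
        (m / 2 * z j ^ 2 / r ^ (m + 2)) σ := by
      have h3 : HasDerivAt (fun σ => Real.sqrt (pw 1 (Function.update s j σ) z) ^ m)
          (m * r ^ (m - 1) * (-(z j ^ 2) / (2 * r))) σ := h1.pow m
      have h4 := h3.inv (by rw [← hr]; positivity)
      have h5 : HasDerivAt (fun σ => 1 / Real.sqrt (pw 1 (Function.update s j σ) z) ^ m)
          (-(m * r ^ (m - 1) * (-(z j ^ 2) / (2 * r))) / (r ^ m) ^ 2) σ := by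
        refine h4.congr_of_eventuallyEq (Filter.Eventually.of_forall fun x => ?_)
        simp [one_div]
      refine h5.congr_deriv ?_
      rcases m with _ | m
      · simp
      · simp only [Nat.add_sub_cancel]
        field_simp
        ring
    have h3 : HasDerivAt (fun σ =>
        ((2 * Real.pi * (t * Real.sqrt (pw 1 (Function.update s j σ) z)) : ℝ) : ℂ) * I)
        (((2 * Real.pi * (t * (-(z j ^ 2) / (2 * r))) : ℝ) : ℂ) * I) σ := by
      have := ((h1.const_mul t).const_mul (2 * Real.pi)).ofReal_comp.mul_const I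
      exact this
    have h4 := (h3.cexp.mul h2.ofReal_comp).mul_const (f z)
    refine (h4.congr_of_eventuallyEq (Filter.Eventually.of_forall fun x => ?_)).congr_deriv ?_
    · unfold gs ee
      simp only [Pi.mul_apply]
    · unfold gd gs gj ee
      rw [← hr]
      have hsc : ((r : ℝ) : ℂ) ≠ 0 := by exact_mod_cast hr0.ne'
      set X := cexp (((2 * Real.pi * (t * r) : ℝ) : ℂ) * I) with hX
      push_cast
      field_simp
      ring

lemma upd_mem {b σ : ℝ} {s : Fin k → ℝ} (hs : s ∈ BX k b) (j : Fin k) (h0 : 0 ≤ σ) (h1 : σ ≤ b) :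
    Function.update s j σ ∈ BX k b := by
  constructor
  · intro i
    by_cases hij : i = j
    · subst hij
      rw [Function.update_self]
      exact h0
    · rw [Function.update_of_ne hij]
      exact hs.1 i
  · intro i
    by_cases hij : i = j
    · subst hij
      rw [Function.update_self]
      exact h1
    · rw [Function.update_of_ne hij]
      exact hs.2 i

lemma gd_BS (m : ℕ) (t : ℝ) {b M : ℝ} (hb0 : 0 ≤ b) (hb1 : b < 1) {s : Fin k → ℝ}
    (hs : s ∈ BX k b) (j : Fin k) {f : E k → ℂ} (hf : DS M f) :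
    BS (Real.pi * |t| * (1 / kp b ^ (m + 1) * M) + m / 2 * (1 / kp b ^ (m + 2) * M))
      (gd m t s j f) := by
  have h1 := gs_BS (m + 1) t hb0 hb1 hs (gj_DS j hf)
  have h2 := gs_BS (m + 2) t hb0 hb1 hs (gj_DS j hf)
  refine ⟨(h1.meas.const_mul _).add (h2.meas.const_mul _), fun z => ?_, fun z hz => ?_⟩
  · unfold gd
    refine (norm_add_le _ _).trans ?_
    rw [norm_mul, norm_mul, norm_mul, norm_neg, Complex.norm_real, Complex.norm_real,
      Complex.norm_I, mul_one, Real.norm_eq_abs, Real.norm_eq_abs, abs_mul,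
      abs_of_pos Real.pi_pos, abs_of_nonneg (by positivity : (0:ℝ) ≤ m / 2)]
    have h3 := h1.bd z
    have h4 := h2.bd z
    have := Real.pi_pos
    gcongr
  · unfold gd
    rw [h1.supp z hz, h2.supp z hz]
    simp

lemma F_gd (m : ℕ) (t : ℝ) {b M : ℝ} (hb0 : 0 ≤ b) (hb1 : b < 1) {s : Fin k → ℝ}
    (hs : s ∈ BX k b) (j : Fin k) {f : E k → ℂ} (hf : DS M f) (x : E k) :
    𝓕 (gd m t s j f) x = (-((Real.pi * t : ℝ) : ℂ) * I) * u (m + 1) t s (gj j f) x +
        ((m / 2 : ℝ) : ℂ) * u (m + 2) t s (gj j f) x := by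
  have i1 := (Real.fourierIntegral_convergent_iff (μ := volume) x).2
    (gs_BS (m + 1) t hb0 hb1 hs (gj_DS j hf)).int
  have i2 := (Real.fourierIntegral_convergent_iff (μ := volume) x).2
    (gs_BS (m + 2) t hb0 hb1 hs (gj_DS j hf)).int
  unfold u
  simp only [Real.fourier_eq]
  rw [← integral_const_mul, ← integral_const_mul, ← integral_add (i1.const_mul _) (i2.const_mul _)]
  apply integral_congr_ae
  refine ae_of_all _ fun z => ?_
  simp only [gd, Circle.smul_def, smul_eq_mul]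
  ring

lemma u_deriv (m : ℕ) (t : ℝ) {b M : ℝ} (hb1 : b < 1) {s : Fin k → ℝ} (hs : s ∈ BX k b)
    (j : Fin k) {σ : ℝ} (h0 : 0 < σ) (h1 : σ < b) {f : E k → ℂ} (hf : DS M f) (x : E k) :
    HasDerivAt (fun σ => u m t (Function.update s j σ) f x)
      (𝓕 (gd m t (Function.update s j σ) j f) x) σ := by
  have hb0 : 0 ≤ b := by linarith
  set C := Real.pi * |t| * (1 / kp b ^ (m + 1) * M) + m / 2 * (1 / kp b ^ (m + 2) * M) with hC
  unfold u
  simp only [Real.fourier_eq]
  refine (hasDerivAt_integral_of_dominated_loc_of_deriv_le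
    (F := fun σ z => Real.fourierChar (-⟪z, x⟫) • gs m t (Function.update s j σ) f z)
    (F' := fun σ z => Real.fourierChar (-⟪z, x⟫) • gd m t (Function.update s j σ) j f z)
    (s := Ioo 0 b) (bound := (cube k).indicator fun _ => C) (Ioo_mem_nhds h0 h1)
    ?_ ?_ ?_ ?_ ?_ ?_).2
  · filter_upwards [Ioo_mem_nhds h0 h1] with y hy
    exact ((Real.fourierIntegral_convergent_iff (μ := volume) x).2
      (gs_BS m t hb0 hb1 (upd_mem hs j hy.1.le hy.2.le) hf).int).aestronglyMeasurable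
  · exact (Real.fourierIntegral_convergent_iff (μ := volume) x).2
      (gs_BS m t hb0 hb1 (upd_mem hs j h0.le h1.le) hf).int
  · exact ((Real.fourierIntegral_convergent_iff (μ := volume) x).2
      (gd_BS m t hb0 hb1 (upd_mem hs j h0.le h1.le) j hf).int).aestronglyMeasurable
  · refine ae_of_all _ fun z y hy => ?_
    have hBS := gd_BS m t hb0 hb1 (upd_mem hs j hy.1.le hy.2.le) j hf
    rw [Circle.norm_smul]
    by_cases hz : z ∈ cube k
    · rw [indicator_of_mem hz]
      exact hBS.bd z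
    · rw [indicator_of_notMem hz, hBS.supp z hz, norm_zero]
  · rw [integrable_indicator_iff (cube_meas k)]
    exact integrableOn_const (cube_vol k).ne
  · refine ae_of_all _ fun z y hy => ?_
    have hp : f z = 0 ∨ 0 < pw 1 (Function.update s j y) z := by
      rcases lt_or_ge 1 ‖z‖ with h | h
      · exact Or.inl (hf.supp z h)
      · right
        have := pw_lower hb0 (upd_mem hs j hy.1.le hy.2.le) h
        linarith
    have h1 := gs_deriv m t s j y f z hp
    simp only [Circle.smul_def, smul_eq_mul]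
    exact h1.const_mul _

lemma sob_u (m : ℕ) {t T M b c d : ℝ} (hb1 : b < 1) (hc : 0 < c) (hcd : c ≤ d) (hd : d < b)
    (hT : 1 ≤ T) (hdT : (d - c) * T ≤ 1) (ht : |t| ≤ 2 * T) {f : E k → ℂ} (hf : DS M f)
    (x : E k) {s : Fin k → ℝ} (hs : s ∈ BX k b) (j : Fin k) (hl : s j ∈ Icc c d) :
    ENNReal.ofReal (d - c) * ‖u m t s f x‖ₑ ^ 4 ≤
      cS m * ∫⁻ σ in Icc c d, (‖u m t (Function.update s j σ) f x‖ₑ ^ 4 +
        ‖u (m + 1) t (Function.update s j σ) (gj j f) x‖ₑ ^ 4 +
        ‖u (m + 2) t (Function.update s j σ) (gj j f) x‖ₑ ^ 4) := by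
  have hb0 : 0 ≤ b := by linarith
  have hσ : ∀ σ ∈ Icc c d, 0 < σ ∧ σ < b := fun σ h => ⟨lt_of_lt_of_le hc h.1, lt_of_le_of_lt h.2 hd⟩
  have c0 : ContinuousOn (fun σ => u m t (Function.update s j σ) f x) (Icc c d) := fun σ h =>
    (u_deriv m t hb1 hs j (hσ σ h).1 (hσ σ h).2 hf x).continuousAt.continuousWithinAt
  have c1 : ContinuousOn (fun σ => u (m + 1) t (Function.update s j σ) (gj j f) x) (Icc c d) :=
    fun σ h => (u_deriv (m + 1) t hb1 hs j (hσ σ h).1 (hσ σ h).2
      (gj_DS j hf) x).continuousAt.continuousWithinAt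
  have c2 : ContinuousOn (fun σ => u (m + 2) t (Function.update s j σ) (gj j f) x) (Icc c d) :=
    fun σ h => (u_deriv (m + 2) t hb1 hs j (hσ σ h).1 (hσ σ h).2
      (gj_DS j hf) x).continuousAt.continuousWithinAt
  have hF : ∀ σ ∈ Icc c d, 𝓕 (gd m t (Function.update s j σ) j f) x =
      (-((Real.pi * t : ℝ) : ℂ) * I) * u (m + 1) t (Function.update s j σ) (gj j f) x +
        ((m / 2 : ℝ) : ℂ) * u (m + 2) t (Function.update s j σ) (gj j f) x := by
    intro σ h
    exact F_gd m t hb0 hb1 (upd_mem hs j (hσ σ h).1.le (hσ σ h).2.le) j hf x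
  have cQ : ContinuousOn (fun σ => 𝓕 (gd m t (Function.update s j σ) j f) x) (Icc c d) :=
    ((continuousOn_const.mul c1).add (continuousOn_const.mul c2)).congr hF
  have h1 := sob (fun σ => u m t (Function.update s j σ) f x)
    (fun σ => 𝓕 (gd m t (Function.update s j σ) j f) x)
    (fun σ h => u_deriv m t hb1 hs j (hσ σ h).1 (hσ σ h).2 hf x) cQ (s j) hl
  rw [Function.update_eq_self] at h1
  refine h1.trans ?_
  set μ := (volume : Measure ℝ).restrict (Icc c d) with hμ
  have m1 : AEMeasurable (fun σ => ‖u (m + 1) t (Function.update s j σ) (gj j f) x‖ₑ ^ 4) μ :=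
    (c1.aestronglyMeasurable measurableSet_Icc).enorm.pow_const 4
  have m2 : AEMeasurable (fun σ => ‖u (m + 2) t (Function.update s j σ) (gj j f) x‖ₑ ^ 4) μ :=
    (c2.aestronglyMeasurable measurableSet_Icc).enorm.pow_const 4
  rw [lintegral_add_right' _ m2, lintegral_add_right' _ m1]
  set I0 := ∫⁻ σ, ‖u m t (Function.update s j σ) f x‖ₑ ^ 4 ∂μ with hI0
  set I1 := ∫⁻ σ, ‖u (m + 1) t (Function.update s j σ) (gj j f) x‖ₑ ^ 4 ∂μ with hI1
  set I2 := ∫⁻ σ, ‖u (m + 2) t (Function.update s j σ) (gj j f) x‖ₑ ^ 4 ∂μ with hI2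
  have hd0 : 0 ≤ d - c := by linarith
  have hb : ∫⁻ σ, ‖𝓕 (gd m t (Function.update s j σ) j f) x‖ₑ ^ 4 ∂μ ≤
      8 * (ENNReal.ofReal (2 * Real.pi * T) ^ 4 * I1 + ENNReal.ofReal (m / 2) ^ 4 * I2) := by
    rw [hI1, hI2, ← lintegral_const_mul'' _ m1, ← lintegral_const_mul'' _ m2,
      ← lintegral_add_left' (m1.const_mul _), ← lintegral_const_mul' _ _
        (by norm_num : (8 : ℝ≥0∞) ≠ ⊤), hμ]
    apply setLIntegral_mono' measurableSet_Icc
    intro σ h
    rw [hF σ h]
    have e1 : ‖(-((Real.pi * t : ℝ) : ℂ) * I) *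
        u (m + 1) t (Function.update s j σ) (gj j f) x‖ₑ ≤
        ENNReal.ofReal (2 * Real.pi * T) *
          ‖u (m + 1) t (Function.update s j σ) (gj j f) x‖ₑ := by
      rw [enorm_mul]
      gcongr
      rw [← ofReal_norm, norm_mul, norm_neg, Complex.norm_real, Complex.norm_I, mul_one,
        Real.norm_eq_abs, abs_mul, abs_of_pos Real.pi_pos]
      apply ENNReal.ofReal_le_ofReal
      nlinarith [Real.pi_pos]
    have e2 : ‖((m / 2 : ℝ) : ℂ) * u (m + 2) t (Function.update s j σ) (gj j f) x‖ₑ =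
        ENNReal.ofReal (m / 2) * ‖u (m + 2) t (Function.update s j σ) (gj j f) x‖ₑ := by
      rw [enorm_mul, ← ofReal_norm, Complex.norm_real, Real.norm_eq_abs,
        abs_of_nonneg (by positivity)]
    calc _ ≤ (ENNReal.ofReal (2 * Real.pi * T) *
          ‖u (m + 1) t (Function.update s j σ) (gj j f) x‖ₑ +
          ENNReal.ofReal (m / 2) * ‖u (m + 2) t (Function.update s j σ) (gj j f) x‖ₑ) ^ 4 := by
          apply pow_le_pow_left'
          refine (enorm_add_le _ _).trans ?_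
          rw [e2]
          gcongr
      _ ≤ _ := by
          refine (add_pow4 _ _).trans (le_of_eq ?_)
          simp only [mul_pow]
  have k1 : ENNReal.ofReal (d - c) ^ 4 * ENNReal.ofReal (2 * Real.pi * T) ^ 4 ≤
      ENNReal.ofReal (2 * Real.pi) ^ 4 := by
    rw [← mul_pow, ← ENNReal.ofReal_mul hd0]
    apply pow_le_pow_left'
    apply ENNReal.ofReal_le_ofReal
    nlinarith [Real.pi_pos]
  have k2 : ENNReal.ofReal (d - c) ^ 4 ≤ 1 := by
    apply pow_le_one'
    rw [← ENNReal.ofReal_one]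
    apply ENNReal.ofReal_le_ofReal
    nlinarith
  calc 8 * I0 + 8 * (ENNReal.ofReal (d - c) ^ 4 *
        ∫⁻ σ, ‖𝓕 (gd m t (Function.update s j σ) j f) x‖ₑ ^ 4 ∂μ)
      ≤ 8 * I0 + 8 * (ENNReal.ofReal (d - c) ^ 4 * (8 * (ENNReal.ofReal (2 * Real.pi * T) ^ 4 * I1 +
        ENNReal.ofReal (m / 2) ^ 4 * I2))) := by gcongr
    _ = 8 * I0 + 64 * ((ENNReal.ofReal (d - c) ^ 4 * ENNReal.ofReal (2 * Real.pi * T) ^ 4) * I1) +
        64 * (ENNReal.ofReal (d - c) ^ 4 * (ENNReal.ofReal (m / 2) ^ 4 * I2)) := by ring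
    _ ≤ 8 * I0 + 64 * (ENNReal.ofReal (2 * Real.pi) ^ 4 * I1) +
        64 * (1 * (ENNReal.ofReal (m / 2) ^ 4 * I2)) := by gcongr
    _ = 8 * I0 + (64 * ENNReal.ofReal (2 * Real.pi) ^ 4) * I1 +
        (64 * ENNReal.ofReal (m / 2) ^ 4) * I2 := by ring
    _ ≤ cS m * I0 + cS m * I1 + cS m * I2 := by
        have n0 : 8 ≤ cS m := by
          unfold cS
          rw [add_assoc]
          exact le_self_add
        have n1 : 64 * ENNReal.ofReal (2 * Real.pi) ^ 4 ≤ cS m := by
          unfold cS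
          exact le_add_self.trans le_self_add
        have n2 : 64 * ENNReal.ofReal (m / 2) ^ 4 ≤ cS m := by
          unfold cS
          exact le_add_self
        gcongr
    _ = cS m * (I0 + I1 + I2) := by ring

lemma cS_mono {m N : ℕ} (h : m ≤ N) : cS m ≤ cS N := by
  unfold cS
  have : (m : ℝ) ≤ N := by exact_mod_cast h
  gcongr

/-- the sum of the fourth powers -/
noncomputable def JJ (n m : ℕ) (t : ℝ) (s : Finset (Fin k)) (g : E k → ℂ) (x : E k)
    (l : Fin k → ℝ) : ℝ≥0∞ :=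
  ∑ S ∈ s.powerset, ∑ i ∈ Finset.range (2 * n + 1), ‖u (m + i) t l (gS S g) x‖ₑ ^ 4

lemma u_meas_l (hm : S_MG) (m : ℕ) (t : ℝ) (x : E k) {g : E k → ℂ} (hg : Measurable g) :
    Measurable fun l : Fin k → ℝ => u m t l g x :=
  (mF hm m hg).comp (f := fun l : Fin k → ℝ => (((t, l) : ℝ × (Fin k → ℝ)), x)) (by fun_prop)

lemma JJ_meas (hm : S_MG) (n m : ℕ) (t : ℝ) (s : Finset (Fin k)) {g : E k → ℂ}
    (hg : Measurable g) (x : E k) : Measurable (JJ n m t s g x) := by
  unfold JJ
  exact Finset.measurable_sum _ fun S _ => Finset.measurable_sum _ fun i _ =>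
    (u_meas_l hm _ t x (gS_meas S hg)).enorm.pow_const 4

lemma shift_sum (a : ℕ → ℝ≥0∞) (n c : ℕ) (hc : c ≤ 2) :
    ∑ i ∈ Finset.range (2 * n + 1), a (c + i) ≤ ∑ i ∈ Finset.range (2 * (n + 1) + 1), a i := by
  have e : ∑ i ∈ Finset.range (2 * n + 1), a (c + i) =
      ∑ i ∈ (Finset.range (2 * n + 1)).map (addLeftEmbedding c), a i := by
    rw [Finset.sum_map]
    rfl
  rw [e]
  apply Finset.sum_le_sum_of_subset
  intro i hi
  rw [Finset.mem_map] at hi
  obtain ⟨j, hj, rfl⟩ := hi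
  rw [Finset.mem_range] at hj ⊢
  simp only [addLeftEmbedding_apply]
  omega

lemma JJ_insert (n m : ℕ) (t : ℝ) {j : Fin k} {s : Finset (Fin k)} (hj : j ∉ s) (g : E k → ℂ)
    (x : E k) (l : Fin k → ℝ) :
    JJ n m t s g x l + JJ n (m + 1) t s (gj j g) x l + JJ n (m + 2) t s (gj j g) x l ≤
      2 * JJ (n + 1) m t (insert j s) g x l := by
  unfold JJ
  rw [Finset.sum_powerset_insert hj]
  have h0 : ∑ S ∈ s.powerset, ∑ i ∈ Finset.range (2 * n + 1), ‖u (m + i) t l (gS S g) x‖ₑ ^ 4 ≤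
      ∑ S ∈ s.powerset, ∑ i ∈ Finset.range (2 * (n + 1) + 1), ‖u (m + i) t l (gS S g) x‖ₑ ^ 4 := by
    refine Finset.sum_le_sum fun S _ => ?_
    have := shift_sum (fun i => ‖u (m + i) t l (gS S g) x‖ₑ ^ 4) n 0 (by norm_num)
    simpa only [zero_add] using this
  have h1 : ∀ c ≤ 2, ∑ S ∈ s.powerset, ∑ i ∈ Finset.range (2 * n + 1),
      ‖u (m + c + i) t l (gS S (gj j g)) x‖ₑ ^ 4 ≤ ∑ S ∈ s.powerset,
        ∑ i ∈ Finset.range (2 * (n + 1) + 1), ‖u (m + i) t l (gS (insert j S) g) x‖ₑ ^ 4 := by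
    intro c hc
    refine Finset.sum_le_sum fun S hS => ?_
    rw [gS_insert (fun h => hj (Finset.mem_powerset.1 hS h))]
    have := shift_sum (fun i => ‖u (m + i) t l (gS S (gj j g)) x‖ₑ ^ 4) n c hc
    simpa only [add_assoc] using this
  refine (add_le_add (add_le_add h0 (h1 1 (by norm_num))) (h1 2 le_rfl)).trans ?_
  set A := ∑ S ∈ s.powerset, ∑ i ∈ Finset.range (2 * (n + 1) + 1),
    ‖u (m + i) t l (gS S g) x‖ₑ ^ 4 with hA
  set B := ∑ S ∈ s.powerset, ∑ i ∈ Finset.range (2 * (n + 1) + 1),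
    ‖u (m + i) t l (gS (insert j S) g) x‖ₑ ^ 4 with hB
  calc A + B + B ≤ (A + B + B) + A := le_self_add
    _ = 2 * (A + B) := by ring

/-- iterated Sobolev inequality -/
lemma iter (hm : S_MG) {t T M b h : ℝ} (hb1 : b < 1) (hh : 0 ≤ h) (hT : 1 ≤ T) (hhT : h * T ≤ 1)
    (ht : |t| ≤ 2 * T) (x : E k) (a : Fin k → ℝ) (ha0 : ∀ i, 0 < a i) (ha1 : ∀ i, a i + h < b)
    (N : ℕ) (s : Finset (Fin k)) : ∀ (m : ℕ), m + 2 * s.card ≤ N → ∀ g : E k → ℂ, DS M g →
      ∀ l : Fin k → ℝ, (∀ j, l j ∈ Icc (a j) (a j + h)) →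
      ENNReal.ofReal h ^ s.card * ‖u m t l g x‖ₑ ^ 4 ≤ (2 * cS N) ^ s.card *
        (∫⋯∫⁻_s, JJ s.card m t s g x
          ∂(fun j => (volume : Measure ℝ).restrict (Icc (a j) (a j + h)))) l := by
  induction s using Finset.induction_on with
  | empty =>
    intro m _ g hg l hl
    simp [JJ, gS_empty]
  | insert j s hj ih =>
    intro m hmN g hg l hl
    rw [Finset.card_insert_of_notMem hj] at hmN ⊢
    rw [pow_succ, mul_assoc]
    have hg2 := gj_DS j hg
    have hlj : l j ∈ Icc (a j) (a j + h) := hl j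
    have e0 : a j + h - a j = h := by ring
    have hbox : l ∈ BX k b := ⟨fun i => (ha0 i).le.trans (hl i).1,
      fun i => (hl i).2.trans (ha1 i).le⟩
    have h1 := sob_u m hb1 (ha0 j) (by linarith : a j ≤ a j + h) (ha1 j) hT
      (by rw [e0]; exact hhT) ht hg x hbox j hlj
    rw [e0] at h1
    set μ : Fin k → Measure ℝ := fun j => (volume : Measure ℝ).restrict (Icc (a j) (a j + h))
      with hμ
    have hupd : ∀ σ ∈ Icc (a j) (a j + h), ∀ i, Function.update l j σ i ∈ Icc (a i) (a i + h) := by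
      intro σ hσ i
      by_cases hij : i = j
      · subst hij
        rw [Function.update_self]
        exact hσ
      · rw [Function.update_of_ne hij]
        exact hl i
    rw [lmarginal_insert _ (JJ_meas hm _ m t _ hg.meas x) hj l]
    calc ENNReal.ofReal h ^ s.card * (ENNReal.ofReal h * ‖u m t l g x‖ₑ ^ 4)
        ≤ ENNReal.ofReal h ^ s.card * (cS N * ∫⁻ ξ in Icc (a j) (a j + h),
          (‖u m t (Function.update l j ξ) g x‖ₑ ^ 4 +
            ‖u (m + 1) t (Function.update l j ξ) (gj j g) x‖ₑ ^ 4 +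
            ‖u (m + 2) t (Function.update l j ξ) (gj j g) x‖ₑ ^ 4)) :=
          mul_le_mul' le_rfl (h1.trans (mul_le_mul' (cS_mono (by omega)) le_rfl))
      _ = cS N * ∫⁻ ξ in Icc (a j) (a j + h), (ENNReal.ofReal h ^ s.card *
          ‖u m t (Function.update l j ξ) g x‖ₑ ^ 4 + ENNReal.ofReal h ^ s.card *
            ‖u (m + 1) t (Function.update l j ξ) (gj j g) x‖ₑ ^ 4 + ENNReal.ofReal h ^ s.card *
            ‖u (m + 2) t (Function.update l j ξ) (gj j g) x‖ₑ ^ 4) := by
          simp only [← mul_add]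
          rw [lintegral_const_mul' _ _ (ENNReal.pow_ne_top ENNReal.ofReal_ne_top)]
          ring
      _ ≤ cS N * ∫⁻ ξ in Icc (a j) (a j + h), ((2 * cS N) ^ s.card *
          (2 * (∫⋯∫⁻_s, JJ (s.card + 1) m t (insert j s) g x ∂μ) (Function.update l j ξ))) := by
          refine mul_le_mul' le_rfl (setLIntegral_mono' measurableSet_Icc fun ξ hξ => ?_)
          refine (add_le_add (add_le_add (ih m (by omega) g hg _ (hupd ξ hξ))
            (ih (m + 1) (by omega) _ hg2 _ (hupd ξ hξ)))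
            (ih (m + 2) (by omega) _ hg2 _ (hupd ξ hξ))).trans ?_
          rw [← mul_add, ← mul_add]
          refine mul_le_mul' le_rfl ?_
          have q1 := JJ_meas hm s.card m t s hg.meas x
          have q2 := JJ_meas hm s.card (m + 1) t s hg2.meas x
          have q3 := JJ_meas hm s.card (m + 2) t s hg2.meas x
          set l' := Function.update l j ξ with hl'
          have p1 : Measurable fun y : (i : s) → ℝ =>
              JJ s.card m t s g x (Function.updateFinset l' s y) :=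
            q1.comp measurable_updateFinset
          have p2 : Measurable fun y : (i : s) → ℝ =>
              JJ s.card (m + 1) t s (gj j g) x (Function.updateFinset l' s y) :=
            q2.comp measurable_updateFinset
          have p12 : Measurable fun y : (i : s) → ℝ =>
              JJ s.card m t s g x (Function.updateFinset l' s y) +
                JJ s.card (m + 1) t s (gj j g) x (Function.updateFinset l' s y) := p1.add p2
          unfold lmarginal
          rw [← lintegral_add_left p1, ← lintegral_add_left p12,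
            ← lintegral_const_mul' _ _ ENNReal.ofNat_ne_top]
          apply lintegral_mono
          intro y
          exact JJ_insert s.card m t hj g x _
      _ = _ := by
          have hN : (2 * cS N) ≠ ⊤ := ENNReal.mul_ne_top ENNReal.ofNat_ne_top (cS_lt N).ne
          rw [lintegral_const_mul' _ _ (ENNReal.pow_ne_top hN),
            lintegral_const_mul' _ _ ENNReal.ofNat_ne_top]
          rw [pow_succ]
          ring

lemma box (hm : S_MG) (m : ℕ) {t T M b h : ℝ} (hb1 : b < 1) (hh : 0 ≤ h) (hT : 1 ≤ T)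
    (hhT : h * T ≤ 1) (ht : |t| ≤ 2 * T) (x : E k) (a : Fin k → ℝ) (ha0 : ∀ i, 0 < a i)
    (ha1 : ∀ i, a i + h < b) {g : E k → ℂ} (hg : DS M g) (l : Fin k → ℝ)
    (hl : l ∈ Icc a (fun j => a j + h)) :
    ENNReal.ofReal h ^ k * ‖u m t l g x‖ₑ ^ 4 ≤ (2 * cS (m + 2 * k)) ^ k *
      ∫⁻ l in Icc a (fun j => a j + h), JJ k m t Finset.univ g x l := by
  have h1 := iter hm hb1 hh hT hhT ht x a ha0 ha1 (m + 2 * k) Finset.univ m
    (by rw [Finset.card_univ, Fintype.card_fin]) g hg l (fun j => ⟨hl.1 j, hl.2 j⟩)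
  rw [Finset.card_univ, Fintype.card_fin, lmarginal_univ] at h1
  have e : Measure.pi (fun j => (volume : Measure ℝ).restrict (Icc (a j) (a j + h))) =
      (volume : Measure (Fin k → ℝ)).restrict (Icc a (fun j => a j + h)) := by
    rw [← Measure.restrict_pi_pi, pi_univ_Icc]
    rfl
  rw [e] at h1
  exact h1

lemma DM_meas (hm : S_MG) (m : ℕ) (T : ℝ) {g : E k → ℂ} (hg : Measurable g) :
    Measurable fun l : Fin k → ℝ => DM m T l g := by
  have h := mNQ hm m 4 (ST T) hg
  unfold NQ at h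
  unfold DM
  simp only [ENNReal.rpow_ofNat] at h
  exact h

/-- the majorant -/
noncomputable def Z (m : ℕ) (T : ℝ) (l : Fin k → ℝ) (g : E k → ℂ) : ℝ≥0∞ :=
  ∑ S ∈ (Finset.univ : Finset (Fin k)).powerset, ∑ i ∈ Finset.range (2 * k + 1),
    DM (m + i) T l (gS S g)

lemma Z_meas (hm : S_MG) (m : ℕ) (T : ℝ) {g : E k → ℂ} (hg : Measurable g) :
    Measurable fun l : Fin k → ℝ => Z m T l g := by
  unfold Z
  exact Finset.measurable_sum _ fun S _ => Finset.measurable_sum _ fun i _ =>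
    DM_meas hm _ T (gS_meas S hg)

theorem D_loc (hm : S_MG) (m : ℕ) {T M b h : ℝ} (hb1 : b < 1) (hh : 0 ≤ h) (hT : 1 ≤ T)
    (hhT : h * T ≤ 1) (a : Fin k → ℝ) (ha0 : ∀ i, 0 < a i) (ha1 : ∀ i, a i + h < b)
    {g : E k → ℂ} (hg : DS M g) (l : Fin k → ℝ) (hl : l ∈ Icc a (fun j => a j + h)) :
    ENNReal.ofReal h ^ k * DM m T l g ≤
      (2 * cS (m + 2 * k)) ^ k * ∫⁻ s in Icc a (fun j => a j + h), Z m T s g := by
  have hN : (2 * cS (m + 2 * k)) ^ k ≠ ⊤ :=
    ENNReal.pow_ne_top (ENNReal.mul_ne_top ENNReal.ofNat_ne_top (cS_lt _).ne)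
  set Bx : Set (Fin k → ℝ) := Icc a (fun j => a j + h) with hBx
  set ν := ((volume : Measure ℝ).restrict (ST T)).prod (volume : Measure (E k)) with hν
  have hm1 : ∀ (m : ℕ) (g : E k → ℂ), Measurable g → ∀ l : Fin k → ℝ,
      Measurable fun p : ℝ × E k => ‖u m p.1 l g p.2‖ₑ ^ 4 := by
    intro m g hg l
    exact ((mF hm m hg).comp (f := fun p : ℝ × E k =>
      (((p.1, l) : ℝ × (Fin k → ℝ)), p.2)) (by fun_prop)).enorm.pow_const 4
  have hD : ∀ (m : ℕ) (g : E k → ℂ), Measurable g → ∀ l : Fin k → ℝ,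
      DM m T l g = ∫⁻ p, ‖u m p.1 l g p.2‖ₑ ^ 4 ∂ν := by
    intro m g hg l
    rw [hν, lintegral_prod _ (hm1 m g hg l).aemeasurable]
    rfl
  have hJm : Measurable fun r : (ℝ × E k) × (Fin k → ℝ) =>
      JJ k m r.1.1 Finset.univ g r.1.2 r.2 := by
    unfold JJ
    refine Finset.measurable_sum _ fun S _ => Finset.measurable_sum _ fun i _ => ?_
    exact ((mF hm (m + i) (gS_meas S hg.meas)).comp
      (f := fun r : (ℝ × E k) × (Fin k → ℝ) =>
        (((r.1.1, r.2) : ℝ × (Fin k → ℝ)), r.1.2)) (by fun_prop)).enorm.pow_const 4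
  rw [hD m g hg.meas l]
  calc ENNReal.ofReal h ^ k * ∫⁻ p, ‖u m p.1 l g p.2‖ₑ ^ 4 ∂ν
      = ∫⁻ p, ENNReal.ofReal h ^ k * ‖u m p.1 l g p.2‖ₑ ^ 4 ∂ν := by
        rw [lintegral_const_mul' _ _ (ENNReal.pow_ne_top ENNReal.ofReal_ne_top)]
    _ ≤ ∫⁻ p, (2 * cS (m + 2 * k)) ^ k * (∫⁻ l in Bx, JJ k m p.1 Finset.univ g p.2 l) ∂ν := by
        have hae : ∀ᵐ p ∂ν, p.1 ∈ ST T := by
          rw [hν]
          have h2 : (volume.restrict (ST T)).prod (volume : Measure (E k)) =
              (volume.prod volume).restrict (ST T ×ˢ univ) := by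
            rw [← Measure.prod_restrict, Measure.restrict_univ]
          rw [h2]
          filter_upwards [ae_restrict_mem ((ST_meas T).prod MeasurableSet.univ)] with p hp
          exact hp.1
        apply lintegral_mono_ae
        filter_upwards [hae] with p hp
        exact box hm m hb1 hh hT hhT hp.2 p.2 a ha0 ha1 hg l hl
    _ = (2 * cS (m + 2 * k)) ^ k * ∫⁻ p, (∫⁻ l in Bx, JJ k m p.1 Finset.univ g p.2 l) ∂ν := by
        rw [lintegral_const_mul' _ _ hN]
    _ = (2 * cS (m + 2 * k)) ^ k * ∫⁻ l in Bx, (∫⁻ p, JJ k m p.1 Finset.univ g p.2 l ∂ν) := by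
        rw [lintegral_lintegral_swap]
        exact hJm.aemeasurable
    _ = _ := by
        congr 1
        apply lintegral_congr
        intro l
        unfold JJ Z
        rw [lintegral_finsetSum _ fun S _ => Finset.measurable_sum _ fun i _ =>
          hm1 _ _ (gS_meas S hg.meas) l]
        refine Finset.sum_congr rfl fun S _ => ?_
        rw [lintegral_finsetSum _ fun i _ => hm1 _ _ (gS_meas S hg.meas) l]
        exact Finset.sum_congr rfl fun i _ => (hD _ _ (gS_meas S hg.meas) l).symm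

end Pool.Agent.W777.SP
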