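import Mathlib
import Pool.Agent.W777.SP.Loc
import Pool.Agent.W777.SP.Dim
import Pool.Agent.W777.SP.LQ
import Pool.Agent.W777.MF.Exc
set_option autoImplicit false

/-! The exceptional dilations of a density on the sphere. -/

namespace Pool.Agent.W777.SP

open MeasureTheory Set Complex FourierTransform Filter
open scoped ENNReal NNReal RealInnerProductSpace Topology
open Pool.Agent.H153R4 (E BS ST ST_meas ST_vol cube cube_vol cube_meas interp plancherel)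
open Pool.Agent.W777.DL (cover_ST cS cS_lt)
open Pool.Agent.W777.MF (real_ineq)
open Pool.Agent.W777.ST (fk fk_meas fk_BS fk_int fk_sum VV sum_pow geo_mean Kc Kc_pos geo_sum W W_ne
  hol1)
open Pool.Agent.W203.SP

variable {k : ℕ}

lemma fk_DS {f : E k → ℂ} (hf : Measurable f) (hs : ∀ z, 1 < ‖z‖ → f z = 0) (j : ℕ) :
    DS (2 ^ j) (fk f j) := by
  have h := fk_BS hf (fun z hz => hs z (ball_cube hz)) j
  refine ⟨h.meas, h.bd, fun z hz => ?_⟩
  unfold fk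
  by_cases h : z ∈ Pool.Agent.W777.ST.Lv f j
  · rw [indicator_of_mem h, hs z hz]
  · rw [indicator_of_notMem h]

lemma mF1 (hm : S_MG) (m : ℕ) (s : Fin k → ℝ) {g : E k → ℂ} (hg : Measurable g) :
    Measurable fun r : ℝ × E k => 𝓕 (gs m r.1 s g) r.2 :=
  (mF hm m hg).comp (f := fun r : ℝ × E k => (((r.1, s) : ℝ × (Fin k → ℝ)), r.2)) (by fun_prop)

lemma NQ_interp (hm : S_MG) (m : ℕ) {q T M b : ℝ} (hb0 : 0 ≤ b) (hb1 : b < 1) {s : Fin k → ℝ}
    (hs : s ∈ BX k b) (hq2 : 2 ≤ q) (hq4 : q ≤ 4) (hT : 0 ≤ T) {g : E k → ℂ} (hg : DS M g) :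
    NQ m q (ST T) s g ≤ (ENNReal.ofReal (2 * T) * (ENNReal.ofReal (1 / kp b ^ m) ^ 2 *
      ∫⁻ z, ‖g z‖ₑ ^ 2)) ^ ((4 - q) / 2) * DM m T s g ^ ((q - 2) / 2) := by
  have hme := (mF1 hm m s hg.meas).enorm
  have h := interp ((volume.restrict (ST T)).prod (volume : Measure (E k))) _ hme q hq2 hq4
  rw [lintegral_prod _ (hme.pow_const q).aemeasurable,
    lintegral_prod _ (hme.pow_const 2).aemeasurable,
    lintegral_prod _ (hme.pow_const 4).aemeasurable] at h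
  refine h.trans ?_
  have e4 : ∫⁻ t in ST T, ∫⁻ x, ‖𝓕 (gs m t s g) x‖ₑ ^ 4 = DM m T s g := rfl
  simp only
  rw [e4]
  refine mul_le_mul' (ENNReal.rpow_le_rpow ?_ (by linarith)) le_rfl
  calc ∫⁻ t in ST T, ∫⁻ x, ‖𝓕 (gs m t s g) x‖ₑ ^ 2
      ≤ ∫⁻ _ in ST T, ENNReal.ofReal (1 / kp b ^ m) ^ 2 * ∫⁻ z, ‖g z‖ₑ ^ 2 :=
        lintegral_mono fun t => two_gs m t hb0 hb1 hs hg
    _ ≤ _ := by
        rw [lintegral_const, Measure.restrict_apply_univ, mul_comm]
        gcongr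
        exact ST_vol T hT

lemma NQ_triv (m : ℕ) {q M b : ℝ} (hb0 : 0 ≤ b) (hb1 : b < 1) {s : Fin k → ℝ}
    (hs : s ∈ BX k b) (hq2 : 2 ≤ q) (S : Set ℝ) {g : E k → ℂ} (hg : DS M g) :
    NQ m q S s g ≤ (ENNReal.ofReal (1 / kp b ^ m) * ∫⁻ z, ‖g z‖ₑ) ^ (q - 2) *
      (volume S * (ENNReal.ofReal (1 / kp b ^ m) ^ 2 * ∫⁻ z, ‖g z‖ₑ ^ 2)) := by
  have hi : ∫⁻ z, ‖g z‖ₑ ≠ ⊤ := (DS.BS hg).int.2.ne
  refine (NQ_mono m hb0 hb1 (by norm_num : (0:ℝ) ≤ 2) hq2 hs S hg.supp hi).trans ?_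
  refine mul_le_mul' le_rfl ?_
  unfold NQ
  simp only [ENNReal.rpow_ofNat]
  calc ∫⁻ t in S, ∫⁻ x, ‖𝓕 (gs m t s g) x‖ₑ ^ 2
      ≤ ∫⁻ _ in S, ENNReal.ofReal (1 / kp b ^ m) ^ 2 * ∫⁻ z, ‖g z‖ₑ ^ 2 :=
        lintegral_mono fun t => two_gs m t hb0 hb1 hs hg
    _ = _ := by
        rw [lintegral_const, Measure.restrict_apply_univ, mul_comm]

/-- the Fourier transform of the sum -/
lemma F_sum (m : ℕ) (t : ℝ) {b : ℝ} (hb0 : 0 ≤ b) (hb1 : b < 1) {s : Fin k → ℝ}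
    (hbs : s ∈ BX k b) {f : E k → ℂ} (hf : Measurable f) (hs : ∀ z, 1 < ‖z‖ → f z = 0) {q : ℝ}
    (hq : 1 < q) (hV : VV q f ≠ ⊤) (x : E k) :
    ‖𝓕 (gs m t s f) x‖ₑ ≤ ∑' j, ‖𝓕 (gs m t s (fk f j)) x‖ₑ := by
  have hkp := kp_pos hb1
  have hcb : ∀ z, z ∉ cube k → f z = 0 := fun z hz => hs z (ball_cube hz)
  have hF : ∀ j, Integrable fun z => Real.fourierChar (-⟪z, x⟫) • gs m t s (fk f j) z := fun j =>
    (Real.fourierIntegral_convergent_iff (μ := volume) x).2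
      (gs_BS m t hb0 hb1 hbs (fk_DS hf hs j)).int
  have hnorm : ∀ j, ∫ z, ‖Real.fourierChar (-⟪z, x⟫) • gs m t s (fk f j) z‖ ≤
      (1 / kp b ^ m * (VV q f).toReal) * ((2:ℝ) ^ (1 - q)) ^ j := by
    intro j
    simp only [Circle.norm_smul]
    have h0 : ∫ z, ‖gs m t s (fk f j) z‖ ≤ ∫ z, 1 / kp b ^ m * ‖fk f j z‖ := by
      apply integral_mono (gs_BS m t hb0 hb1 hbs (fk_DS hf hs j)).int.norm
        ((DS.BS (fk_DS hf hs j)).int.norm.const_mul _)
      intro z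
      exact gs_le m t hb0 hb1 hbs (fk_DS hf hs j).supp z
    refine h0.trans ?_
    rw [integral_const_mul, integral_norm_eq_lintegral_enorm (fk_meas hf j).aestronglyMeasurable,
      mul_assoc]
    refine mul_le_mul_of_nonneg_left ?_ (by positivity)
    have h1 := fk_int hcb (by linarith : 0 ≤ q) 1 one_pos j
    simp only [pow_one] at h1
    have h2 : ENNReal.ofReal (((2:ℝ) ^ j) ^ (((1:ℕ) : ℝ) - q)) * VV q f ≠ ⊤ :=
      ENNReal.mul_ne_top ENNReal.ofReal_ne_top hV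
    refine (ENNReal.toReal_mono h2 h1).trans (le_of_eq ?_)
    rw [ENNReal.toReal_mul, ENNReal.toReal_ofReal (by positivity), mul_comm]
    congr 1
    push_cast
    rw [← Real.rpow_natCast, ← Real.rpow_natCast, ← Real.rpow_mul (by norm_num),
      ← Real.rpow_mul (by norm_num)]
    congr 1
    ring
  have hsum : Summable fun j => ∫ z, ‖Real.fourierChar (-⟪z, x⟫) • gs m t s (fk f j) z‖ := by
    refine Summable.of_nonneg_of_le (fun j => integral_nonneg fun z => norm_nonneg _) hnorm ?_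
    refine (summable_geometric_of_lt_one (by positivity) ?_).mul_left _
    exact Real.rpow_lt_one_of_one_lt_of_neg (by norm_num) (by linarith)
  have h1 := hasSum_integral_of_summable_integral_norm hF hsum
  have h2 : ∀ z, ∑' j, Real.fourierChar (-⟪z, x⟫) • gs m t s (fk f j) z =
      Real.fourierChar (-⟪z, x⟫) • gs m t s f z := by
    intro z
    have h3 := (fk_sum f z).mul_left (((Real.fourierChar (-⟪z, x⟫) : Circle) : ℂ) *
        (ee (t * Real.sqrt (pw 1 s z)) * ((1 / Real.sqrt (pw 1 s z) ^ m : ℝ) : ℂ)))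
    have e1 : (fun j => Real.fourierChar (-⟪z, x⟫) • gs m t s (fk f j) z) =
        fun j => (((Real.fourierChar (-⟪z, x⟫) : Circle) : ℂ) *
        (ee (t * Real.sqrt (pw 1 s z)) * ((1 / Real.sqrt (pw 1 s z) ^ m : ℝ) : ℂ))) *
          fk f j z := by
      funext j
      unfold gs
      rw [Circle.smul_def, smul_eq_mul]
      exact (mul_assoc _ _ _).symm
    rw [e1, h3.tsum_eq]
    unfold gs
    rw [Circle.smul_def, smul_eq_mul]
    exact mul_assoc _ _ _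
  simp only [h2] at h1
  have e3 : 𝓕 (gs m t s f) x = ∑' j, 𝓕 (gs m t s (fk f j)) x := by
    simp only [Real.fourier_eq]
    exact h1.tsum_eq.symm
  rw [e3]
  exact enorm_tsum_le_tsum_enorm

/-- the splitting into level sets -/
lemma NQ_sum (hm : S_MG) (m : ℕ) {q c b : ℝ} (hb0 : 0 ≤ b) (hb1 : b < 1) (hq : 1 < q)
    (hc : 0 < c) : ∃ C : ℝ≥0∞, C < ⊤ ∧
    ∀ (f : E k → ℂ), Measurable f → (∀ z, 1 < ‖z‖ → f z = 0) → VV q f ≠ ⊤ →
      ∀ (s : Fin k → ℝ), s ∈ BX k b → ∀ (S : Set ℝ), NQ m q S s f ≤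
        C * ∑' j, ENNReal.ofReal (((2:ℝ) ^ j) ^ c) * NQ m q S s (fk f j) := by
  obtain ⟨C, hC, h⟩ := sum_pow q c hq hc
  refine ⟨C, hC, fun f hf hs hV l hl S => ?_⟩
  have hm1 : ∀ j, Measurable fun r : ℝ × E k => ‖𝓕 (gs m r.1 l (fk f j)) r.2‖ₑ ^ q :=
    fun j => (mF1 hm m l (fk_meas hf j)).enorm.pow_const q
  have hm2 : ∀ j, Measurable fun t => ∫⁻ x, ‖𝓕 (gs m t l (fk f j)) x‖ₑ ^ q :=
    fun j => (hm1 j).lintegral_prod_right'
  have hm3 : ∀ j (t : ℝ), Measurable fun x => ‖𝓕 (gs m t l (fk f j)) x‖ₑ ^ q :=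
    fun j t => (hm1 j).comp (f := fun x => (t, x)) (by fun_prop)
  have hpt : ∀ (t : ℝ) (x : E k), ‖𝓕 (gs m t l f) x‖ₑ ^ q ≤
      C * ∑' j, ENNReal.ofReal (((2:ℝ) ^ j) ^ c) * ‖𝓕 (gs m t l (fk f j)) x‖ₑ ^ q := by
    intro t x
    exact (ENNReal.rpow_le_rpow (F_sum m t hb0 hb1 hl hf hs hq hV x) (by linarith)).trans (h _)
  have hin : ∀ t, ∫⁻ x, ‖𝓕 (gs m t l f) x‖ₑ ^ q ≤
      C * ∑' j, ENNReal.ofReal (((2:ℝ) ^ j) ^ c) * ∫⁻ x, ‖𝓕 (gs m t l (fk f j)) x‖ₑ ^ q := by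
    intro t
    refine (lintegral_mono (hpt t)).trans (le_of_eq ?_)
    rw [lintegral_const_mul' _ _ hC.ne, lintegral_tsum fun j =>
      ((hm3 j t).const_mul _).aemeasurable]
    congr 1
    apply tsum_congr
    intro j
    rw [lintegral_const_mul' _ _ ENNReal.ofReal_ne_top]
  unfold NQ
  refine (lintegral_mono hin).trans (le_of_eq ?_)
  rw [lintegral_const_mul' _ _ hC.ne, lintegral_tsum fun j =>
      ((hm2 j).const_mul _).aemeasurable]
  congr 1
  apply tsum_congr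
  intro j
  rw [lintegral_const_mul' _ _ ENNReal.ofReal_ne_top]

/-- the weighted sum of the fourth moments -/
noncomputable def DD (m : ℕ) (q ε : ℝ) (f : E k → ℂ) (T : ℝ) (l : Fin k → ℝ) : ℝ≥0∞ :=
  ∑' j, W q ε j * DM m T l (fk f j)

/-- the weighted sum of the majorants -/
noncomputable def ZZ (m : ℕ) (q ε : ℝ) (f : E k → ℂ) (T : ℝ) (l : Fin k → ℝ) : ℝ≥0∞ :=
  ∑' j, W q ε j * Z m T l (fk f j)

theorem DD_loc (hm : S_MG) (m : ℕ) {q ε T b h : ℝ} (hb1 : b < 1) (hh : 0 ≤ h) (hT : 1 ≤ T)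
    (hhT : h * T ≤ 1) {f : E k → ℂ} (hf : Measurable f) (hs : ∀ z, 1 < ‖z‖ → f z = 0)
    (a : Fin k → ℝ) (ha0 : ∀ i, 0 < a i) (ha1 : ∀ i, a i + h < b) (l : Fin k → ℝ)
    (hl : l ∈ Icc a (fun j => a j + h)) :
    ENNReal.ofReal h ^ k * DD m q ε f T l ≤
      (2 * cS (m + 2 * k)) ^ k * ∫⁻ s in Icc a (fun j => a j + h), ZZ m q ε f T s := by
  unfold DD ZZ
  rw [lintegral_tsum fun j => ((Z_meas hm m T (fk_meas hf j)).const_mul _).aemeasurable,
    ← ENNReal.tsum_mul_left, ← ENNReal.tsum_mul_left]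
  apply ENNReal.tsum_le_tsum
  intro j
  rw [lintegral_const_mul' _ _ (W_ne q ε j)]
  have hd := D_loc hm m hb1 hh hT hhT a ha0 ha1 (fk_DS hf hs j) l hl
  calc ENNReal.ofReal _ ^ k * (W q ε j * DM m T l (fk f j)) =
        W q ε j * (ENNReal.ofReal _ ^ k * DM m T l (fk f j)) := by ring
    _ ≤ W q ε j * ((2 * cS (m + 2 * k)) ^ k *
          ∫⁻ s in Icc a (fun j => a j + _), Z m T s (fk f j)) := mul_le_mul' le_rfl hd
    _ = _ := by ring

theorem ZZ_avg (h4 : S_M4) (hm : S_MG) (m : ℕ) {q ε e b : ℝ} (hε : 0 < ε) (he : 0 < e)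
    (hq : 0 ≤ q) (hb0 : 0 ≤ b) (hb1 : b < 1) :
    ∃ C : ℝ≥0∞, C < ⊤ ∧ ∀ (f : E k → ℂ), Measurable f →
      (∀ z, 1 < ‖z‖ → f z = 0) → ∀ T : ℝ, 1 ≤ T →
        ∫⁻ l in BX k b, ZZ m q ε f T l ≤ C * VV q f * ENNReal.ofReal (T ^ (1 - k + e)) := by
  choose C hC h using fun i : ℕ => h4 k (m + i) b e hb0 hb1 he
  set c1 : ℝ≥0∞ := ∑ i ∈ Finset.range (2 * k + 1), C i with hc1
  have hc1t : c1 < ⊤ := ENNReal.sum_lt_top.2 fun i _ => hC i
  set c0 : ℝ≥0∞ := (((Finset.univ : Finset (Fin k)).powerset.card : ℕ) : ℝ≥0∞) with hc0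
  refine ⟨c0 * c1 * ∑' j : ℕ, ENNReal.ofReal (((2:ℝ) ^ j) ^ (-ε)), ?_, fun f hf hs T hT => ?_⟩
  · exact ENNReal.mul_lt_top (ENNReal.mul_lt_top (by simp [hc0]) hc1t) (geo_sum (by linarith))
  have hcb : ∀ z, z ∉ cube k → f z = 0 := fun z hz => hs z (ball_cube hz)
  unfold ZZ
  rw [lintegral_tsum fun j => ((Z_meas hm m T (fk_meas hf j)).const_mul _).aemeasurable]
  have hk : ∀ j, ∫⁻ l in BX k b, W q ε j * Z m T l (fk f j) ≤
      ENNReal.ofReal (((2:ℝ) ^ j) ^ (-ε)) * (c0 * c1 *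
        VV q f * ENNReal.ofReal (T ^ (1 - k + e))) := by
    intro j
    have hDS := fk_DS hf hs j
    have h4 : ∫⁻ z, ‖fk f j z‖ₑ ^ 4 ≤ ENNReal.ofReal (((2:ℝ) ^ j) ^ (4 - q)) * VV q f := by
      have := fk_int hcb hq 4 (by norm_num) j
      push_cast at this
      exact this
    have hZ : ∫⁻ l in BX k b, Z m T l (fk f j) ≤
        c0 * (c1 * ENNReal.ofReal (T ^ (1 - k + e)) * ∫⁻ z, ‖fk f j z‖ₑ ^ 4) := by
      unfold Z
      rw [lintegral_finsetSum _ fun S _ => Finset.measurable_sum _ fun i _ =>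
        DM_meas hm (m + i) T (gS_meas S hDS.meas), hc0, ← nsmul_eq_mul, ← Finset.sum_const]
      refine Finset.sum_le_sum fun S _ => ?_
      rw [lintegral_finsetSum _ fun i _ => DM_meas hm (m + i) T (gS_meas S hDS.meas), hc1,
        Finset.sum_mul, Finset.sum_mul]
      refine Finset.sum_le_sum fun i _ => ?_
      refine (h i T hT _ _ (gS_DS S hDS)).trans ?_
      exact mul_le_mul' le_rfl (gS_int S hDS)
    rw [lintegral_const_mul' _ _ (W_ne q ε j)]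
    have hW : W q ε j * ENNReal.ofReal (((2:ℝ) ^ j) ^ (4 - q)) =
        ENNReal.ofReal (((2:ℝ) ^ j) ^ (-ε)) := by
      unfold W
      rw [← ENNReal.ofReal_mul (by positivity), ← Real.rpow_add (by positivity)]
      congr 2
      ring
    calc W q ε j * ∫⁻ l in BX k b, Z m T l (fk f j)
        ≤ W q ε j * (c0 * (c1 * ENNReal.ofReal (T ^ (1 - k + e)) *
          (ENNReal.ofReal (((2:ℝ) ^ j) ^ (4 - q)) * VV q f))) :=
          mul_le_mul' le_rfl (hZ.trans (mul_le_mul' le_rfl (mul_le_mul' le_rfl h4)))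
      _ = (W q ε j * ENNReal.ofReal (((2:ℝ) ^ j) ^ (4 - q))) *
          (c0 * c1 * VV q f * ENNReal.ofReal (T ^ (1 - k + e))) := by ring
      _ = _ := by rw [hW]
  refine (ENNReal.tsum_le_tsum hk).trans (le_of_eq ?_)
  rw [ENNReal.tsum_mul_right]
  ring

/-- integrability at good parameters -/
theorem good_fin (hm : S_MG) (m : ℕ) {q γ δ η b : ℝ} (hb0 : 0 ≤ b) (hb1 : b < 1)
    {l : Fin k → ℝ} (hl : l ∈ BX k b) (hq2 : 2 < q) (hq4 : q ≤ 4)
    (hδ : δ = γ * ((q - 2) / 2) - (4 - q) / 2) (hδ0 : 0 < δ) (hη : η = δ / (2 * (1 + δ)))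
    {f : E k → ℂ} (hf : Measurable f) (hs : ∀ z, 1 < ‖z‖ → f z = 0) (hV : VV q f ≠ ⊤)
    (hD : ∀ᶠ j : ℕ in atTop, DD m q η f ((2 ^ j : ℕ) : ℝ) l ≤
      ENNReal.ofReal (((2 ^ j : ℕ) : ℝ) ^ (-γ))) : NQ m q univ l f < ⊤ := by
  have hη0 : 0 < η := by rw [hη]; positivity
  have hη1 : η < 1 / 2 := by
    rw [hη, div_lt_div_iff₀ (by positivity) (by norm_num)]
    linarith
  set κ : ℝ := η * (q - 2) with hκ
  have hκ0 : 0 < κ := mul_pos hη0 (by linarith)
  have hcb : ∀ z, z ∉ cube k → f z = 0 := fun z hz => hs z (ball_cube hz)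
  obtain ⟨C, hC, hsum⟩ := NQ_sum (k := k) hm m (q := q) (c := κ) hb0 hb1 (by linarith) hκ0
  obtain ⟨J, hJ⟩ := eventually_atTop.1 hD
  have hkp := kp_pos hb1
  set r : ℝ := 1 / kp b ^ m with hr
  have hr0 : 0 < r := by positivity
  set v : ℝ := (r + r ^ 2) * ((VV q f).toReal + 1) with hv
  have hV0 : 0 ≤ (VV q f).toReal := ENNReal.toReal_nonneg
  have hv0 : 0 < v := by positivity
  have hVr : VV q f ≤ ENNReal.ofReal ((VV q f).toReal + 1) := by
    nth_rewrite 1 [← ENNReal.ofReal_toReal hV]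
    apply ENNReal.ofReal_le_ofReal
    linarith
  have hVv1 : ENNReal.ofReal r * VV q f ≤ ENNReal.ofReal v := by
    refine (mul_le_mul' le_rfl hVr).trans ?_
    rw [← ENNReal.ofReal_mul hr0.le, hv]
    apply ENNReal.ofReal_le_ofReal
    have : 0 ≤ r ^ 2 * ((VV q f).toReal + 1) := by positivity
    linarith
  have hVv2 : ENNReal.ofReal r ^ 2 * VV q f ≤ ENNReal.ofReal v := by
    refine (mul_le_mul' le_rfl hVr).trans ?_
    rw [← ENNReal.ofReal_pow hr0.le, ← ENNReal.ofReal_mul (by positivity), hv]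
    apply ENNReal.ofReal_le_ofReal
    have : 0 ≤ r * ((VV q f).toReal + 1) := by positivity
    linarith
  have hX : ∀ j : ℕ, (1:ℝ) ≤ (2:ℝ) ^ j := fun j => one_le_pow₀ (by norm_num)
  have m1 : ∀ j, ENNReal.ofReal r * ∫⁻ z, ‖fk f j z‖ₑ ≤
      ENNReal.ofReal (((2:ℝ) ^ j) ^ (1 - q) * v) := by
    intro j
    have h := fk_int hcb (by linarith : 0 ≤ q) 1 one_pos j
    simp only [pow_one] at h
    push_cast at h
    rw [ENNReal.ofReal_mul (by positivity)]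
    calc ENNReal.ofReal r * ∫⁻ z, ‖fk f j z‖ₑ ≤
          ENNReal.ofReal r * (ENNReal.ofReal (((2:ℝ) ^ j) ^ (1 - q)) * VV q f) :=
          mul_le_mul' le_rfl h
      _ = ENNReal.ofReal (((2:ℝ) ^ j) ^ (1 - q)) * (ENNReal.ofReal r * VV q f) := by ring
      _ ≤ _ := mul_le_mul' le_rfl hVv1
  have m2 : ∀ j, ENNReal.ofReal r ^ 2 * ∫⁻ z, ‖fk f j z‖ₑ ^ 2 ≤
      ENNReal.ofReal (((2:ℝ) ^ j) ^ (2 - q) * v) := by
    intro j
    have h := fk_int hcb (by linarith : 0 ≤ q) 2 two_pos j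
    push_cast at h
    rw [ENNReal.ofReal_mul (by positivity)]
    calc ENNReal.ofReal r ^ 2 * ∫⁻ z, ‖fk f j z‖ₑ ^ 2 ≤
          ENNReal.ofReal r ^ 2 * (ENNReal.ofReal (((2:ℝ) ^ j) ^ (2 - q)) * VV q f) :=
          mul_le_mul' le_rfl h
      _ = ENNReal.ofReal (((2:ℝ) ^ j) ^ (2 - q)) * (ENNReal.ofReal r ^ 2 * VV q f) := by ring
      _ ≤ _ := mul_le_mul' le_rfl hVv2
  -- the trivial bound
  have hB : ∀ (j : ℕ) (τ : ℝ) (S : Set ℝ), 0 < τ → volume S ≤ ENNReal.ofReal (2 * τ) →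
      NQ m q S l (fk f j) ≤ ENNReal.ofReal ((((2:ℝ) ^ j) ^ (1 - q) * v) ^ (q - 2) *
        (2 * τ * (((2:ℝ) ^ j) ^ (2 - q) * v))) := by
    intro j τ S hτ hS
    refine (NQ_triv m hb0 hb1 hl (by linarith) S (fk_DS hf hs j)).trans ?_
    rw [ENNReal.ofReal_mul (by positivity), ← ENNReal.ofReal_rpow_of_nonneg (by positivity)
      (by linarith), ENNReal.ofReal_mul (p := 2 * τ) (by positivity)]
    exact mul_le_mul' (ENNReal.rpow_le_rpow (m1 j) (by linarith)) (mul_le_mul' hS (m2 j))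
  -- finiteness for sets of finite measure
  have hfin : ∀ (τ : ℝ) (S : Set ℝ), 0 < τ → volume S ≤ ENNReal.ofReal (2 * τ) →
      NQ m q S l f < ⊤ := by
    intro τ S hτ hS
    refine lt_of_le_of_lt (hsum f hf hs hV l hl S) (ENNReal.mul_lt_top hC ?_)
    have hk : ∀ j : ℕ, ENNReal.ofReal (((2:ℝ) ^ j) ^ κ) * NQ m q S l (fk f j) ≤
        ENNReal.ofReal (((2:ℝ) ^ j) ^ (-(q - 2))) * ENNReal.ofReal (2 * τ * v ^ (q - 1)) := by
      intro j
      refine (mul_le_mul' le_rfl (hB j τ S hτ hS)).trans ?_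
      rw [← ENNReal.ofReal_mul (by positivity), ← ENNReal.ofReal_mul (by positivity)]
      apply ENNReal.ofReal_le_ofReal
      set X : ℝ := (2:ℝ) ^ j with hXd
      have hX0 : 0 < X := by positivity
      have b1 : v ^ (q - 1) = v ^ (q - 2) * v := by
        rw [show q - 1 = (q - 2) + 1 by ring, Real.rpow_add hv0, Real.rpow_one]
      have e1 : X ^ κ * ((X ^ (1 - q) * v) ^ (q - 2) * (2 * τ * (X ^ (2 - q) * v))) =
          X ^ (κ - q * (q - 2)) * (2 * τ * v ^ (q - 1)) := by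
        rw [Real.mul_rpow (by positivity) hv0.le, ← Real.rpow_mul hX0.le, b1]
        have b2 : X ^ (κ - q * (q - 2)) = X ^ κ * X ^ ((1 - q) * (q - 2)) * X ^ (2 - q) := by
          rw [← Real.rpow_add hX0, ← Real.rpow_add hX0]
          congr 1
          ring
        rw [b2]
        ring
      rw [e1]
      have e2 : X ^ (κ - q * (q - 2)) ≤ X ^ (-(q - 2)) := by
        apply Real.rpow_le_rpow_of_exponent_le (hX j)
        rw [hκ]
        nlinarith
      have : 0 ≤ 2 * τ * v ^ (q - 1) := by positivity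
      gcongr
    refine lt_of_le_of_lt (ENNReal.tsum_le_tsum hk) ?_
    rw [ENNReal.tsum_mul_right]
    exact ENNReal.mul_lt_top (geo_sum (by linarith)) ENNReal.ofReal_lt_top
  -- the geometric bound
  set G : ℝ≥0∞ := C * (ENNReal.ofReal (Kc v q η) *
    ∑' j : ℕ, ENNReal.ofReal (((2:ℝ) ^ j) ^ (-(κ / 2)))) with hG
  have hGt : G < ⊤ := ENNReal.mul_lt_top hC (ENNReal.mul_lt_top ENNReal.ofReal_lt_top
    (geo_sum (by linarith)))
  have hgeo : ∀ i, J ≤ i → NQ m q (ST ((2 ^ i : ℕ) : ℝ)) l f ≤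
      G * ENNReal.ofReal (((2:ℝ) ^ i) ^ (-(δ / 2))) := by
    intro i hi
    have hTi : ((2 ^ i : ℕ) : ℝ) = (2:ℝ) ^ i := by push_cast; rfl
    have hDi := hJ i hi
    rw [hTi] at hDi ⊢
    set T : ℝ := (2:ℝ) ^ i with hT
    have hT0 : 0 < T := by positivity
    refine (hsum f hf hs hV l hl (ST T)).trans ?_
    have hk : ∀ j : ℕ, ENNReal.ofReal (((2:ℝ) ^ j) ^ κ) * NQ m q (ST T) l (fk f j) ≤
        ENNReal.ofReal (((2:ℝ) ^ j) ^ (-(κ / 2))) * (ENNReal.ofReal (Kc v q η) *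
          ENNReal.ofReal (T ^ (-(δ / 2)))) := by
      intro j
      set X : ℝ := (2:ℝ) ^ j with hXd
      have hX0 : 0 < X := by positivity
      have hDk : DM m T l (fk f j) ≤ ENNReal.ofReal (X ^ (4 - q + η) * T ^ (-γ)) := by
        have h1 : W q η j * DM m T l (fk f j) ≤ ENNReal.ofReal (T ^ (-γ)) :=
          (ENNReal.le_tsum j).trans hDi
        have h2 : ENNReal.ofReal (X ^ (4 - q + η)) * W q η j = 1 := by
          unfold W
          rw [← ENNReal.ofReal_mul (by positivity), ← hXd, ← Real.rpow_add hX0, add_neg_cancel,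
            Real.rpow_zero, ENNReal.ofReal_one]
        calc DM m T l (fk f j) =
              ENNReal.ofReal (X ^ (4 - q + η)) * (W q η j * DM m T l (fk f j)) := by
              rw [← mul_assoc, h2, one_mul]
          _ ≤ ENNReal.ofReal (X ^ (4 - q + η)) * ENNReal.ofReal (T ^ (-γ)) := by gcongr
          _ = _ := (ENNReal.ofReal_mul (by positivity)).symm
      have hA : NQ m q (ST T) l (fk f j) ≤
          ENNReal.ofReal ((2 * T * (X ^ (2 - q) * v)) ^ ((4 - q) / 2) *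
          (X ^ (4 - q + η) * T ^ (-γ)) ^ ((q - 2) / 2)) := by
        refine (NQ_interp hm m hb0 hb1 hl (by linarith) hq4 hT0.le (fk_DS hf hs j)).trans ?_
        rw [ENNReal.ofReal_mul (p := (2 * T * (X ^ (2 - q) * v)) ^ ((4 - q) / 2)) (by positivity),
          ← ENNReal.ofReal_rpow_of_nonneg (x := 2 * T * (X ^ (2 - q) * v)) (by positivity)
          (by linarith), ← ENNReal.ofReal_rpow_of_nonneg (x := X ^ (4 - q + η) * T ^ (-γ))
          (by positivity) (by linarith), ENNReal.ofReal_mul (p := 2 * T) (by positivity)]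
        exact mul_le_mul' (ENNReal.rpow_le_rpow (mul_le_mul' le_rfl (m2 j)) (by linarith))
          (ENNReal.rpow_le_rpow hDk (by linarith))
      have hBk := hB j T (ST T) hT0 (ST_vol T hT0.le)
      have hN := geo_mean (by positivity) (by positivity) hη0.le (by linarith) hA hBk
      have hR := real_ineq hv0 hq2 hδ hδ0 hη hT0 (hX j)
      refine (mul_le_mul' le_rfl (hN.trans (ENNReal.ofReal_le_ofReal hR))).trans (le_of_eq ?_)
      have hK := (Kc_pos hv0 q η).le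
      rw [← ENNReal.ofReal_mul (by positivity), ← ENNReal.ofReal_mul hK,
        ← ENNReal.ofReal_mul (by positivity)]
      congr 1
      have e3 : X ^ (-(κ / 2)) = X ^ κ * X ^ (-(3 / 2 * (η * (q - 2)))) := by
        rw [← Real.rpow_add hX0]
        congr 1
        rw [hκ]
        ring
      rw [e3, ← hXd]
      ring
    refine (mul_le_mul' le_rfl (ENNReal.tsum_le_tsum hk)).trans (le_of_eq ?_)
    rw [ENNReal.tsum_mul_right, hG]
    ring
  -- summation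
  have hsum2 : ∑' i : ℕ, NQ m q (ST ((2 ^ i : ℕ) : ℝ)) l f < ⊤ := by
    have h1 : ∀ i : ℕ, NQ m q (ST ((2 ^ i : ℕ) : ℝ)) l f ≤
        (if i ∈ Finset.range J then NQ m q (ST ((2 ^ i : ℕ) : ℝ)) l f else 0) +
          G * ENNReal.ofReal (((2:ℝ) ^ i) ^ (-(δ / 2))) := by
      intro i
      by_cases hi : i ∈ Finset.range J
      · rw [if_pos hi]
        exact le_self_add
      · rw [if_neg hi, zero_add]
        exact hgeo i (by simpa using hi)
    refine lt_of_le_of_lt (ENNReal.tsum_le_tsum h1) ?_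
    rw [ENNReal.tsum_add]
    refine ENNReal.add_lt_top.2 ⟨?_, ?_⟩
    · rw [tsum_eq_sum (s := Finset.range J) (fun i hi => if_neg hi)]
      refine ENNReal.sum_lt_top.2 fun i hi => ?_
      rw [if_pos hi]
      exact hfin ((2 ^ i : ℕ) : ℝ) _ (by positivity) (ST_vol _ (by positivity))
    · rw [ENNReal.tsum_mul_left]
      exact ENNReal.mul_lt_top hGt (geo_sum (by linarith))
  have h2 : NQ m q univ l f ≤ NQ m q (Icc (-1) 1) l f +
      ∑' i : ℕ, NQ m q (ST ((2 ^ i : ℕ) : ℝ)) l f := by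
    unfold NQ
    refine (lintegral_mono_set cover_ST).trans ?_
    refine (lintegral_union_le _ _ _).trans ?_
    gcongr
    exact lintegral_iUnion_le _ _
  refine lt_of_le_of_lt h2 (ENNReal.add_lt_top.2 ⟨?_, hsum2⟩)
  apply hfin 1 _ one_pos
  rw [Real.volume_Icc]
  norm_num

theorem exc_piece (h4 : S_M4) (hm : S_MG) (m : ℕ) {q a' b' : ℝ} (ha : 0 < a') (hab : a' < b')
    (hb : b' < 1) (hq2 : 2 < q) (hq4 : q ≤ 4) {f : E k → ℂ} (hf : Measurable f)
    (hs : ∀ z, 1 < ‖z‖ → f z = 0) (hV : VV q f ≠ ⊤) :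
    dimH {l ∈ Icc (fun _ : Fin k => a') (fun _ => b') | NQ m q univ l f = ⊤} ≤
      ENNReal.ofReal (1 + (4 - q) / (q - 2)) := by
  have hg0 : 0 ≤ (4 - q) / (q - 2) := div_nonneg (by linarith) (by linarith)
  set b : ℝ := (1 + b') / 2 with hbd
  have hb1 : b < 1 := by rw [hbd]; linarith
  have hbb : b' < b := by rw [hbd]; linarith
  have hb0 : 0 ≤ b := by linarith
  have hw : 0 < b' - a' := by linarith
  have ew : a' + (b' - a') = b' := by ring
  have key : ∀ γ e : ℝ, (4 - q) / (q - 2) < γ → 0 < e →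
      dimH {l ∈ Icc (fun _ : Fin k => a') (fun _ => b') | NQ m q univ l f = ⊤} ≤
        ENNReal.ofReal (γ + (1 + e)) := by
    intro γ e hγ he0
    set δ : ℝ := γ * ((q - 2) / 2) - (4 - q) / 2 with hδ
    have hδ0 : 0 < δ := by
      rw [div_lt_iff₀ (by linarith)] at hγ
      rw [hδ]
      linarith
    set η : ℝ := δ / (2 * (1 + δ)) with hη
    have hη0 : 0 < η := by positivity
    obtain ⟨C, hC, h⟩ := ZZ_avg (k := k) h4 hm m (q := q) (ε := η) (e := e) (b := b) hη0 he0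
      (by linarith) hb0 hb1
    have hN : (2 * cS (m + 2 * k)) ^ k ≠ ⊤ :=
      ENNReal.pow_ne_top (ENNReal.mul_ne_top ENNReal.ofNat_ne_top (cS_lt _).ne)
    have hdb := dim_bound (m := k) (c := a') (w := b' - a') hw
      (fun j l => DD m q η f ((2 ^ j : ℕ) : ℝ) l) (fun j l => ZZ m q η f ((2 ^ j : ℕ) : ℝ) l)
      ((2 * cS (m + 2 * k)) ^ k) (C * VV q f) hN
      (ENNReal.mul_ne_top hC.ne hV) γ (1 + e) (by linarith) ?_ ?_
    · refine le_trans (dimH_mono ?_) hdb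
      rw [ew]
      rintro l ⟨hl, hT⟩
      refine ⟨hl, ?_⟩
      by_contra hcon
      rw [not_frequently] at hcon
      simp only [not_lt] at hcon
      have hlb : l ∈ BX k b := ⟨fun i => ha.le.trans (hl.1 i), fun i => (hl.2 i).trans hbb.le⟩
      have := good_fin hm m hb0 hb1 hlb hq2 hq4 hδ hδ0 hη hf hs hV hcon
      exact absurd hT this.ne
    · intro j n hn l hl
      have hN1 : (1:ℝ) ≤ ((2 ^ j : ℕ) : ℝ) := by exact_mod_cast Nat.one_le_two_pow
      have hN0 : (0:ℝ) < ((2 ^ j : ℕ) : ℝ) := by positivity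
      set h' : ℝ := (b' - a') / ((2 ^ j : ℕ) : ℝ) with hh'
      have hh0 : 0 < h' := by positivity
      have hNh : ((2 ^ j : ℕ) : ℝ) * h' = b' - a' := by rw [hh']; field_simp
      unfold Pool.Agent.W777.MF.II at hl ⊢
      refine DD_loc hm m hb1 hh0.le hN1 ?_ hf hs (fun i => a' + n i * h') ?_ ?_ l hl
      · rw [mul_comm, hNh]
        linarith
      · intro i
        have : (0:ℝ) ≤ n i * h' := by positivity
        linarith
      · intro i
        have h2 : ((n i : ℕ) : ℝ) + 1 ≤ ((2 ^ j : ℕ) : ℝ) := by exact_mod_cast hn i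
        have h3 : ((n i : ℝ) + 1) * h' ≤ ((2 ^ j : ℕ) : ℝ) * h' :=
          mul_le_mul_of_nonneg_right h2 hh0.le
        have h4 : a' + (n i : ℝ) * h' + h' = a' + ((n i : ℝ) + 1) * h' := by ring
        change a' + (n i : ℝ) * h' + h' < b
        rw [h4]
        linarith
    · intro j
      have hN1 : (1:ℝ) ≤ ((2 ^ j : ℕ) : ℝ) := by exact_mod_cast Nat.one_le_two_pow
      rw [ew]
      have h5 := h f hf hs _ hN1
      have h6 : (1:ℝ) + e - k = 1 - k + e := by ring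
      rw [h6]
      refine le_trans (lintegral_mono_set ?_) h5
      exact Icc_subset_Icc (fun _ => ha.le) (fun _ => hbb.le)
  refine ENNReal.le_of_forall_pos_le_add fun ε hε _ => ?_
  have hε' : (0:ℝ) < ε := hε
  set κ : ℝ := (ε : ℝ) / 2 with hκ
  have hκ0 : 0 < κ := by positivity
  refine (key ((4 - q) / (q - 2) + κ) κ (by linarith) hκ0).trans ?_
  have e1 : (4 - q) / (q - 2) + κ + (1 + κ) = 1 + (4 - q) / (q - 2) + ε := by
    rw [hκ]
    ring
  rw [e1, ENNReal.ofReal_add (by linarith) hε'.le, ENNReal.ofReal_coe_nnreal]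

theorem exc_low (h4 : S_M4) (hm : S_MG) (m : ℕ) {q : ℝ} (hq2 : 2 < q) (hq4 : q ≤ 4)
    {f : E k → ℂ} (hf : Measurable f) (hs : ∀ z, 1 < ‖z‖ → f z = 0) (hV : VV q f ≠ ⊤) :
    dimH {l : Fin k → ℝ | (∀ j, 0 < l j ∧ l j < 1) ∧ NQ m q univ l f = ⊤} ≤
      ENNReal.ofReal (1 + (4 - q) / (q - 2)) := by
  have hsub : {l : Fin k → ℝ | (∀ j, 0 < l j ∧ l j < 1) ∧ NQ m q univ l f = ⊤} ⊆
      ⋃ n : ℕ, {l ∈ Icc (fun _ : Fin k => 1 / ((n : ℝ) + 3)) (fun _ => 1 - 1 / ((n : ℝ) + 3)) |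
        NQ m q univ l f = ⊤} := by
    rintro l ⟨hl, hT⟩
    obtain ⟨n, hn⟩ := exists_nat_gt (∑ j, (1 / l j + 1 / (1 - l j)))
    have hj : ∀ j, 1 / l j < n ∧ 1 / (1 - l j) < n := by
      intro j
      have h1 : 0 < l j := (hl j).1
      have h2 : 0 < 1 - l j := by linarith [(hl j).2]
      have h3 : 1 / l j + 1 / (1 - l j) ≤ ∑ j, (1 / l j + 1 / (1 - l j)) :=
        Finset.single_le_sum (f := fun j => 1 / l j + 1 / (1 - l j)) (fun i _ => by
          have h1 : 0 < l i := (hl i).1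
          have h2 : 0 < 1 - l i := by linarith [(hl i).2]
          positivity) (Finset.mem_univ j)
      have h4 : 0 < 1 / l j := by positivity
      have h5 : 0 < 1 / (1 - l j) := by positivity
      constructor <;> linarith
    have hn0 : (0:ℝ) ≤ n := Nat.cast_nonneg n
    refine mem_iUnion.2 ⟨n, ⟨fun j => ?_, fun j => ?_⟩, hT⟩
    · have h1 : 0 < l j := (hl j).1
      have h3 := (hj j).1
      rw [div_lt_iff₀ h1] at h3
      rw [div_le_iff₀ (by linarith)]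
      nlinarith
    · have h2 : 0 < 1 - l j := by linarith [(hl j).2]
      have h3 := (hj j).2
      rw [div_lt_iff₀ h2] at h3
      have : 1 / ((n:ℝ) + 3) ≤ 1 - l j := by
        rw [div_le_iff₀ (by linarith)]
        nlinarith
      change l j ≤ 1 - 1 / ((n:ℝ) + 3)
      linarith
  refine (dimH_mono hsub).trans ?_
  rw [dimH_iUnion]
  refine iSup_le fun n => ?_
  have hn : (0:ℝ) ≤ n := Nat.cast_nonneg n
  have h3 : 1 / ((n : ℝ) + 3) ≤ 1 / 3 := by
    apply one_div_le_one_div_of_le <;> linarith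
  have h5 : 0 < 1 / ((n : ℝ) + 3) := by positivity
  exact exc_piece h4 hm m h5 (by linarith) (by linarith) hq2 hq4 hf hs hV

lemma VV_ne {q : ℝ} {f : E k → ℂ} (hf : ∫⁻ z, ‖f z‖ₑ ^ q ≠ ⊤) : VV q f ≠ ⊤ := by
  unfold VV
  exact ENNReal.add_ne_top.2 ⟨ENNReal.mul_ne_top ENNReal.ofReal_ne_top hf, (cube_vol k).ne⟩

theorem t_EXC (h : S_M4) (hm : S_MG) : S_EXC := by
  intro k q hk hq2 f hf hs hfin
  rcases le_or_gt q 4 with h4 | h4
  · rw [max_eq_right (div_nonneg (by linarith) (by linarith))]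
    exact exc_low h hm 1 hq2 h4 hf hs (VV_ne hfin)
  have hneg : (4 - q) / (q - 2) ≤ 0 := div_nonpos_of_nonpos_of_nonneg (by linarith) (by linarith)
  rw [max_eq_left hneg]
  have hcb : ∀ z, z ∉ cube k → f z = 0 := fun z hz => hs z (ball_cube hz)
  have hVc : volume (cube k) ≠ ⊤ := (cube_vol k).ne
  have hpow : ∀ a : ℝ, 0 < a → a ≤ q → ∫⁻ z, ‖f z‖ₑ ^ a ≠ ⊤ := by
    intro a ha haq
    refine (lt_of_le_of_lt (hol1 ha haq hf hcb) ?_).ne
    have : a / q ≤ 1 := by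
      rw [div_le_one (by linarith)]
      exact haq
    exact ENNReal.mul_lt_top (ENNReal.rpow_lt_top_of_nonneg (by linarith) hVc)
      (ENNReal.rpow_lt_top_of_nonneg (by positivity) hfin)
  have h1 : ∫⁻ z, ‖f z‖ₑ ≠ ⊤ := by
    have := hpow 1 one_pos (by linarith)
    simpa only [ENNReal.rpow_one] using this
  have h5 := exc_low h hm 1 (q := 4) (by norm_num) le_rfl hf hs (VV_ne (hpow 4 (by norm_num) h4.le))
  have h6 : (1:ℝ) + (4 - 4) / (4 - 2) = 1 + 0 := by norm_num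
  rw [h6] at h5
  refine le_trans (dimH_mono ?_) h5
  rintro l ⟨hl, hT⟩
  refine ⟨hl, ?_⟩
  by_contra hcon
  -- a box containing l
  obtain ⟨b, hb0, hb1, hlb⟩ : ∃ b : ℝ, 0 ≤ b ∧ b < 1 ∧ l ∈ BX k b := by
    by_cases hne : Nonempty (Fin k)
    · obtain ⟨j, hj⟩ := Finite.exists_max l
      exact ⟨l j, (hl j).1.le, (hl j).2, fun i => (hl i).1.le, fun i => hj i⟩
    · rw [not_nonempty_iff] at hne
      exact ⟨0, le_rfl, one_pos, fun i => (hne.false i).elim, fun i => (hne.false i).elim⟩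
  have h7 := NQ_mono 1 hb0 hb1 (by norm_num : (0:ℝ) ≤ 4) h4.le hlb univ hs h1
  rw [hT, top_le_iff] at h7
  refine absurd h7 (ENNReal.mul_ne_top (ENNReal.rpow_ne_top_of_nonneg (by linarith) ?_) hcon)
  exact ENNReal.mul_ne_top ENNReal.ofReal_ne_top h1

end Pool.Agent.W777.SP
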