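import Mathlib
import Pool.Agent.H789R2.FR.Sph
set_option autoImplicit false

/-! The upper half sphere of `ℝ^(k+1)` as a graph over the unit ball of `ℝ^k`. -/

namespace Pool.Agent.W777.SP

open MeasureTheory Measure Set Metric Complex
open scoped ENNReal RealInnerProductSpace Topology
open Pool.Agent.H789R2.FR (E sg polar sg_ae)

variable {k : ℕ}

/-- the point `(y, s)` -/
noncomputable def jn (y : E k) (s : ℝ) : E (k + 1) :=
  WithLp.toLp 2 (Fin.snoc (α := fun _ => ℝ) y.ofLp s)

lemma jn_last (y : E k) (s : ℝ) : jn y s (Fin.last k) = s := by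
  unfold jn
  simp

lemma jn_cast (y : E k) (s : ℝ) (i : Fin k) : jn y s i.castSucc = y i := by
  unfold jn
  simp

lemma jn_inner (y x : E k) (s t : ℝ) : (⟪jn y s, jn x t⟫ : ℝ) = ⟪y, x⟫ + s * t := by
  rw [PiLp.inner_apply, PiLp.inner_apply, Fin.sum_univ_castSucc]
  simp only [jn_last, jn_cast]
  simp [mul_comm]

lemma jn_norm_sq (y : E k) (s : ℝ) : ‖jn y s‖ ^ 2 = ‖y‖ ^ 2 + s ^ 2 := by
  rw [← real_inner_self_eq_norm_sq, ← real_inner_self_eq_norm_sq, jn_inner]
  ring

lemma jn_norm (y : E k) (s : ℝ) : ‖jn y s‖ = Real.sqrt (‖y‖ ^ 2 + s ^ 2) := by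
  rw [← jn_norm_sq, Real.sqrt_sq (norm_nonneg _)]

lemma jn_smul (r : ℝ) (y : E k) (s : ℝ) : r • jn y s = jn (r • y) (r * s) := by
  ext i
  refine Fin.lastCases ?_ (fun i => ?_) i
  · rw [jn_last, PiLp.smul_apply, jn_last]
    rfl
  · rw [jn_cast, PiLp.smul_apply, jn_cast]
    rfl

lemma jn_meas : Measurable fun p : E k × ℝ => jn p.1 p.2 := by
  apply Measurable.comp (WithLp.measurable_toLp 2 _)
  rw [measurable_pi_iff]
  intro i
  refine Fin.lastCases ?_ (fun i => ?_) i
  · simp only [Fin.snoc_last]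
    exact measurable_snd
  · simp only [Fin.snoc_castSucc]
    fun_prop

lemma fub (G : E (k + 1) → ℝ≥0∞) (hG : Measurable G) :
    ∫⁻ x, G x = ∫⁻ s, ∫⁻ y, G (jn y s) := by
  have h1 : ∫⁻ x : E (k + 1), G x = ∫⁻ y : Fin (k + 1) → ℝ, G (WithLp.toLp 2 y) :=
    ((PiLp.volume_preserving_toLp (Fin (k + 1))).lintegral_comp hG).symm
  have hG2 : Measurable fun y : Fin (k + 1) → ℝ => G (WithLp.toLp 2 y) :=
    hG.comp (WithLp.measurable_toLp 2 _)
  have h2 := (volume_preserving_piFinSuccAbove (fun _ : Fin (k + 1) => ℝ) (Fin.last k)).symm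
  rw [h1, ← h2.lintegral_comp hG2]
  have hm : Measurable fun p : ℝ × (Fin k → ℝ) => G (WithLp.toLp 2
      ((MeasurableEquiv.piFinSuccAbove (fun _ : Fin (k + 1) => ℝ) (Fin.last k)).symm p)) :=
    hG2.comp (MeasurableEquiv.measurable _)
  have h3 : ∀ (s : ℝ) (y : E k), WithLp.toLp 2
      ((MeasurableEquiv.piFinSuccAbove (fun _ : Fin (k + 1) => ℝ) (Fin.last k)).symm (s, y.ofLp)) =
      jn y s := by
    intro s y
    unfold jn
    congr 1
    change Fin.insertNth (α := fun _ => ℝ) (Fin.last k) s y.ofLp = _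
    rw [Fin.insertNth_last']
  rw [Measure.volume_eq_prod, lintegral_prod _ hm.aemeasurable]
  apply lintegral_congr
  intro s
  have h4 := (PiLp.volume_preserving_ofLp (Fin k)).lintegral_comp (f := fun y : Fin k → ℝ =>
    G (WithLp.toLp 2 ((MeasurableEquiv.piFinSuccAbove (fun _ : Fin (k + 1) => ℝ)
      (Fin.last k)).symm (s, y)))) (hm.comp measurable_prodMk_left)
  rw [← h4]
  apply lintegral_congr
  intro y
  simp only
  rw [h3]

/-- the graph map -/
noncomputable def up (y : E k) : E (k + 1) := jn y (Real.sqrt (1 - ‖y‖ ^ 2))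

lemma up_meas : Measurable (up : E k → E (k + 1)) := by
  unfold up
  exact jn_meas.comp (measurable_id.prodMk
    (measurable_const.sub (measurable_norm.pow_const 2)).sqrt)

lemma up_norm {y : E k} (hy : ‖y‖ ≤ 1) : ‖up y‖ = 1 := by
  unfold up
  rw [jn_norm, Real.sq_sqrt (by nlinarith [norm_nonneg y])]
  rw [show ‖y‖ ^ 2 + (1 - ‖y‖ ^ 2) = 1 by ring, Real.sqrt_one]

/-- a one dimensional substitution -/
lemma subst_r (H : ℝ → ℝ≥0∞) :
    ∫⁻ ρ in Ioi (0:ℝ), H ρ = ∫⁻ r in Ioo (0 : ℝ) 1,
      ENNReal.ofReal (1 / Real.sqrt (1 - r ^ 2) ^ 3) * H (r / Real.sqrt (1 - r ^ 2)) := by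
  set φ : ℝ → ℝ := fun r => r / Real.sqrt (1 - r ^ 2) with hφ
  have hpos : ∀ r ∈ Ioo (0:ℝ) 1, 0 < 1 - r ^ 2 := fun r hr => by nlinarith [hr.1, hr.2]
  have hsp : ∀ r ∈ Ioo (0:ℝ) 1, 0 < Real.sqrt (1 - r ^ 2) := fun r hr => Real.sqrt_pos.2 (hpos r hr)
  have hsq : ∀ r ∈ Ioo (0:ℝ) 1, φ r ^ 2 = 1 / (1 - r ^ 2) - 1 := by
    intro r hr
    rw [hφ]
    simp only
    rw [div_pow, Real.sq_sqrt (hpos r hr).le]
    have := (hpos r hr).ne'
    field_simp
    ring
  have hinj : InjOn φ (Ioo (0:ℝ) 1) := by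
    intro x hx y hy hxy
    have h1 := hsq x hx
    have h2 := hsq y hy
    rw [hxy, h2] at h1
    have h3 : 1 / (1 - y ^ 2) = 1 / (1 - x ^ 2) := by linarith
    rw [div_eq_div_iff (hpos y hy).ne' (hpos x hx).ne'] at h3
    have h4 : x ^ 2 = y ^ 2 := by linarith
    exact (pow_left_inj₀ hx.1.le hy.1.le two_ne_zero).1 h4
  have himg : φ '' Ioo (0:ℝ) 1 = Ioi (0:ℝ) := by
    ext ρ
    constructor
    · rintro ⟨r, hr, rfl⟩
      exact div_pos hr.1 (hsp r hr)
    · intro hρ
      have hρ0 : (0:ℝ) < ρ := hρ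
      have h1 : 0 < Real.sqrt (1 + ρ ^ 2) := Real.sqrt_pos.2 (by positivity)
      have h5 : ρ < Real.sqrt (1 + ρ ^ 2) := by
        rw [Real.lt_sqrt hρ0.le]
        linarith
      refine ⟨ρ / Real.sqrt (1 + ρ ^ 2), ⟨by positivity, ?_⟩, ?_⟩
      · rw [div_lt_one h1]
        exact h5
      · rw [hφ]
        simp only
        rw [div_pow, Real.sq_sqrt (by positivity)]
        have h6 : 1 - ρ ^ 2 / (1 + ρ ^ 2) = 1 / (1 + ρ ^ 2) := by
          field_simp
          ring
        rw [h6, Real.sqrt_div zero_le_one, Real.sqrt_one]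
        field_simp
  have hd : ∀ r ∈ Ioo (0:ℝ) 1,
      HasDerivWithinAt φ (1 / Real.sqrt (1 - r ^ 2) ^ 3) (Ioo 0 1) r := by
    intro r hr
    have h1 : HasDerivAt (fun r : ℝ => 1 - r ^ 2) (-(2 * r)) r := by
      have := (hasDerivAt_pow 2 r).const_sub 1
      exact this.congr_deriv (by norm_num)
    have h2 := h1.sqrt (hpos r hr).ne'
    have h3 := (hasDerivAt_id r).div h2 (hsp r hr).ne'
    refine (h3.congr_deriv ?_).hasDerivWithinAt
    have h4 := hsp r hr
    have h5 : Real.sqrt (1 - r ^ 2) ^ 2 = 1 - r ^ 2 := Real.sq_sqrt (hpos r hr).le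
    simp only [id]
    field_simp
    rw [h5]
    ring
  rw [← himg, lintegral_image_eq_lintegral_abs_deriv_mul measurableSet_Ioo hd hinj H]
  apply setLIntegral_congr_fun measurableSet_Ioo
  intro r hr
  simp only
  rw [abs_of_pos (by have := hsp r hr; positivity)]

/-- radial substitution in `ℝ^k` -/
lemma subst_rad (hk : 0 < k) (F : E k → ℝ≥0∞) (hF : Measurable F) :
    ∫⁻ v, ENNReal.ofReal (1 / Real.sqrt (1 + ‖v‖ ^ 2) ^ (k + 1)) *
        F ((1 / Real.sqrt (1 + ‖v‖ ^ 2)) • v) =
      ∫⁻ y in ball (0 : E k) 1, ENNReal.ofReal (1 / Real.sqrt (1 - ‖y‖ ^ 2)) * F y := by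
  have hm0 : Measurable fun v : E k => 1 / Real.sqrt (1 + ‖v‖ ^ 2) :=
    measurable_const.div (measurable_const.add (measurable_norm.pow_const 2)).sqrt
  have hm1 : Measurable fun v : E k => ENNReal.ofReal (1 / Real.sqrt (1 + ‖v‖ ^ 2) ^ (k + 1)) *
      F ((1 / Real.sqrt (1 + ‖v‖ ^ 2)) • v) := by
    refine Measurable.mul ?_ (hF.comp (hm0.smul measurable_id))
    exact (measurable_const.div ((measurable_const.add
      (measurable_norm.pow_const 2)).sqrt.pow_const _)).ennreal_ofReal
  have hm2 : Measurable fun y : E k => ENNReal.ofReal (1 / Real.sqrt (1 - ‖y‖ ^ 2)) * F y :=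
    (measurable_const.div
      (measurable_const.sub (measurable_norm.pow_const 2)).sqrt).ennreal_ofReal.mul hF
  rw [← lintegral_indicator measurableSet_ball, polar hk _ hm1,
    polar hk _ (hm2.indicator measurableSet_ball)]
  apply lintegral_congr_ae
  filter_upwards [sg_ae k] with w hw
  rw [subst_r]
  have e1 : ∀ r ∈ Ioi (0:ℝ), ENNReal.ofReal (r ^ (k - 1)) * (ball (0 : E k) 1).indicator
      (fun y => ENNReal.ofReal (1 / Real.sqrt (1 - ‖y‖ ^ 2)) * F y) (r • w) =
      (Ioo (0:ℝ) 1).indicator (fun r => ENNReal.ofReal (r ^ (k - 1) / Real.sqrt (1 - r ^ 2)) *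
        F (r • w)) r := by
    intro r hr
    have hr0 : (0:ℝ) < r := hr
    have hn : ‖r • w‖ = r := by rw [norm_smul, hw, mul_one, Real.norm_eq_abs, abs_of_pos hr0]
    by_cases h1 : r < 1
    · rw [indicator_of_mem (show r • w ∈ ball (0 : E k) 1 by
        rw [mem_ball_zero_iff, hn]; exact h1), indicator_of_mem (show r ∈ Ioo (0:ℝ) 1 from ⟨hr, h1⟩),
        hn, ← mul_assoc, ← ENNReal.ofReal_mul (by positivity)]
      congr 2
      ring
    · rw [indicator_of_notMem (show r • w ∉ ball (0 : E k) 1 by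
        rw [mem_ball_zero_iff, hn]; exact h1), indicator_of_notMem (fun h => h1 h.2), mul_zero]
  rw [setLIntegral_congr_fun measurableSet_Ioi e1, lintegral_indicator measurableSet_Ioo,
    Measure.restrict_restrict measurableSet_Ioo]
  have e2 : Ioo (0:ℝ) 1 ∩ Ioi 0 = Ioo 0 1 := by
    ext r
    simp only [mem_inter_iff, mem_Ioo, mem_Ioi]
    tauto
  rw [e2]
  apply setLIntegral_congr_fun measurableSet_Ioo
  intro r hr
  have hpos : 0 < 1 - r ^ 2 := by nlinarith [hr.1, hr.2]
  set c := Real.sqrt (1 - r ^ 2) with hc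
  have hc0 : 0 < c := Real.sqrt_pos.2 hpos
  have hc2 : c ^ 2 = 1 - r ^ 2 := Real.sq_sqrt hpos.le
  have hr0 := hr.1
  have hn : ‖(r / c) • w‖ = r / c := by
    rw [norm_smul, hw, mul_one, Real.norm_eq_abs, abs_of_pos (by positivity)]
  have hs : Real.sqrt (1 + (r / c) ^ 2) = 1 / c := by
    have : 1 + (r / c) ^ 2 = (1 / c) ^ 2 := by
      have hr2 : r ^ 2 = 1 - c ^ 2 := by linarith
      rw [div_pow, hr2]
      field_simp
      ring
    rw [this, Real.sqrt_sq (by positivity)]
  simp only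
  rw [hn, hs, smul_smul, ← mul_assoc, ← mul_assoc, ← ENNReal.ofReal_mul (by positivity),
    ← ENNReal.ofReal_mul (by positivity)]
  have e3 : 1 / (1 / c) * (r / c) = r := by field_simp
  have e4 : 1 / c ^ 3 * (r / c) ^ (k - 1) * (1 / (1 / c) ^ (k + 1)) = r ^ (k - 1) / c := by
    obtain ⟨j, rfl⟩ : ∃ j, k = j + 1 := ⟨k - 1, by omega⟩
    simp only [Nat.add_sub_cancel]
    rw [div_pow, div_pow, one_pow]
    field_simp
    ring
  rw [e3, e4]

lemma HS_meas : MeasurableSet {x : E (k + 1) | 0 < x (Fin.last k)} :=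
  measurableSet_lt measurable_const (by fun_prop)

/-- Integration over the open upper half sphere. -/
theorem half_lint (hk : 0 < k) (F : E (k + 1) → ℝ≥0∞) (hF : Measurable F) :
    ∫⁻ x in {x : E (k + 1) | 0 < x (Fin.last k)}, F x ∂(sg (k + 1)) =
      ∫⁻ y in ball (0 : E k) 1, ENNReal.ofReal (1 / Real.sqrt (1 - ‖y‖ ^ 2)) * F (up y) := by
  set φ : ℝ → ℝ≥0∞ := (Iio (1:ℝ)).indicator fun _ => 1 with hφ
  have hφm : Measurable φ := measurable_const.indicator measurableSet_Iio
  set c : ℝ≥0∞ := ∫⁻ r in Ioi (0:ℝ), ENNReal.ofReal (r ^ k) * φ r with hc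
  have hcv : c = ENNReal.ofReal (1 / (k + 1)) := by
    have h1 : c = ∫⁻ r in Ioc (0:ℝ) 1, ENNReal.ofReal (r ^ k) := by
      rw [hc]
      have e1 : ∀ r : ℝ, ENNReal.ofReal (r ^ k) * φ r =
          (Iio (1:ℝ)).indicator (fun r => ENNReal.ofReal (r ^ k)) r := by
        intro r
        rw [hφ]
        by_cases h : r < 1
        · rw [indicator_of_mem (show r ∈ Iio (1:ℝ) from h),
            indicator_of_mem (show r ∈ Iio (1:ℝ) from h), mul_one]
        · rw [indicator_of_notMem (show r ∉ Iio (1:ℝ) from h),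
            indicator_of_notMem (show r ∉ Iio (1:ℝ) from h), mul_zero]
      simp only [e1]
      rw [lintegral_indicator measurableSet_Iio, Measure.restrict_restrict measurableSet_Iio]
      have e2 : Iio (1:ℝ) ∩ Ioi 0 = Ioo 0 1 := by
        ext r
        simp only [mem_inter_iff, mem_Ioo, mem_Ioi, mem_Iio]
        tauto
      rw [e2]
      exact setLIntegral_congr Ioo_ae_eq_Ioc
    have h2 : ∫ r in Ioc (0:ℝ) 1, r ^ k = 1 / (k + 1) := by
      rw [← intervalIntegral.integral_of_le zero_le_one, integral_pow]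
      simp
    rw [h1, ← h2, ofReal_integral_eq_lintegral_ofReal]
    · have : IntervalIntegrable (fun r : ℝ => r ^ k) volume 0 1 :=
        (continuous_pow k).intervalIntegrable _ _
      rw [intervalIntegrable_iff_integrableOn_Ioc_of_le zero_le_one] at this
      exact this
    · filter_upwards [ae_restrict_mem measurableSet_Ioc] with r hr
      exact pow_nonneg hr.1.le k
  have hc0 : c ≠ 0 := by
    rw [hcv]
    exact (ENNReal.ofReal_pos.2 (by positivity)).ne'
  have hct : c ≠ ⊤ := by
    rw [hcv]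
    exact ENNReal.ofReal_ne_top
  set HS := {x : E (k + 1) | 0 < x (Fin.last k)} with hHS
  set G : E (k + 1) → ℝ≥0∞ := fun x => HS.indicator (fun x => F ((1 / ‖x‖) • x) * φ ‖x‖) x with hG
  have hGm : Measurable G := by
    refine Measurable.indicator ?_ HS_meas
    exact (hF.comp ((measurable_const.div measurable_norm).smul measurable_id)).mul
      (hφm.comp measurable_norm)
  -- polar coordinates
  have hA : ∫⁻ x, G x = c * ∫⁻ x in HS, F x ∂(sg (k + 1)) := by
    rw [polar (Nat.succ_pos k) G hGm, ← lintegral_indicator HS_meas,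
      ← lintegral_const_mul' _ _ hct]
    apply lintegral_congr_ae
    filter_upwards [sg_ae (k + 1)] with w hw
    have e1 : ∀ r ∈ Ioi (0:ℝ), ENNReal.ofReal (r ^ (k + 1 - 1)) * G (r • w) =
        HS.indicator F w * (ENNReal.ofReal (r ^ k) * φ r) := by
      intro r hr
      have hr0 : (0:ℝ) < r := hr
      have hn : ‖r • w‖ = r := by rw [norm_smul, hw, mul_one, Real.norm_eq_abs, abs_of_pos hr0]
      have hmem : r • w ∈ HS ↔ w ∈ HS := by
        rw [hHS]
        simp only [mem_ofPred_eq, PiLp.smul_apply, smul_eq_mul]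
        exact ⟨fun h => (mul_pos_iff_of_pos_left hr0).1 h, fun h => mul_pos hr0 h⟩
      rw [hG]
      simp only [Nat.add_sub_cancel]
      by_cases h : w ∈ HS
      · rw [indicator_of_mem (hmem.2 h), indicator_of_mem h, hn, smul_smul,
          one_div_mul_cancel hr0.ne', one_smul]
        ring
      · rw [indicator_of_notMem (fun h' => h (hmem.1 h')), indicator_of_notMem h]
        ring
    rw [setLIntegral_congr_fun measurableSet_Ioi e1, lintegral_const_mul]
    · rw [← hc, mul_comm]
    · exact ((measurable_id.pow_const k).ennreal_ofReal).mul hφm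
  -- cartesian coordinates
  have hB : ∫⁻ x, G x = c * ∫⁻ v : E k, ENNReal.ofReal (1 / Real.sqrt (1 + ‖v‖ ^ 2) ^ (k + 1)) *
      F (up ((1 / Real.sqrt (1 + ‖v‖ ^ 2)) • v)) := by
    rw [fub G hGm]
    have hpt : ∀ (s : ℝ), 0 < s → ∀ v : E k, G (jn (s • v) s) =
        F (up ((1 / Real.sqrt (1 + ‖v‖ ^ 2)) • v)) * φ (s * Real.sqrt (1 + ‖v‖ ^ 2)) := by
      intro s hs v
      set R := Real.sqrt (1 + ‖v‖ ^ 2) with hR
      have hR0 : 0 < R := Real.sqrt_pos.2 (by positivity)
      have hR2 : R ^ 2 = 1 + ‖v‖ ^ 2 := Real.sq_sqrt (by positivity)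
      have hn : ‖jn (s • v) s‖ = s * R := by
        rw [jn_norm, norm_smul, Real.norm_eq_abs, abs_of_pos hs]
        rw [show (s * ‖v‖) ^ 2 + s ^ 2 = (s * R) ^ 2 by rw [mul_pow, mul_pow, hR2]; ring]
        exact Real.sqrt_sq (by positivity)
      have hmem : jn (s • v) s ∈ HS := by
        rw [hHS]
        simp only [mem_ofPred_eq, jn_last]
        exact hs
      rw [hG]
      simp only
      rw [indicator_of_mem hmem, hn]
      congr 2
      unfold up
      rw [jn_smul, smul_smul]
      congr 1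
      · congr 1
        field_simp
      · rw [norm_smul, Real.norm_eq_abs, abs_of_pos (by positivity)]
        have : 1 - (1 / R * ‖v‖) ^ 2 = (1 / R) ^ 2 := by
          have hv : ‖v‖ ^ 2 = R ^ 2 - 1 := by linarith
          rw [mul_pow, hv]
          field_simp
          ring
        rw [this, Real.sqrt_sq (by positivity)]
        field_simp
    have h0 : ∀ s : ℝ, s ≤ 0 → ∀ y : E k, G (jn y s) = 0 := by
      intro s hs y
      rw [hG]
      simp only
      rw [indicator_of_notMem]
      rw [hHS]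
      simp only [mem_ofPred_eq, jn_last, not_lt]
      exact hs
    have h1 : ∫⁻ s, ∫⁻ y, G (jn y s) = ∫⁻ s in Ioi (0:ℝ), ∫⁻ y, G (jn y s) := by
      rw [← lintegral_indicator measurableSet_Ioi]
      apply lintegral_congr
      intro s
      by_cases hs : 0 < s
      · rw [indicator_of_mem (show s ∈ Ioi (0:ℝ) from hs)]
      · rw [indicator_of_notMem (show s ∉ Ioi (0:ℝ) from hs)]
        simp only [h0 s (not_lt.1 hs), lintegral_zero]
    have h2 : ∀ s ∈ Ioi (0:ℝ), ∫⁻ y, G (jn y s) = ∫⁻ v : E k, ENNReal.ofReal (s ^ k) *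
        (F (up ((1 / Real.sqrt (1 + ‖v‖ ^ 2)) • v)) * φ (s * Real.sqrt (1 + ‖v‖ ^ 2))) := by
      intro s hs
      have hs0 : (0:ℝ) < s := hs
      have hGs : Measurable fun y : E k => G (jn y s) :=
        hGm.comp (jn_meas.comp (measurable_id.prodMk measurable_const))
      have h3 := lintegral_map (μ := (volume : Measure (E k))) (f := fun y => G (jn y s))
        (g := fun v => s • v) hGs (measurable_const_smul s)
      rw [Measure.map_addHaar_smul volume hs0.ne', lintegral_smul_measure, smul_eq_mul,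
        finrank_euclideanSpace_fin, abs_of_pos (by positivity)] at h3
      rw [lintegral_const_mul' _ _ ENNReal.ofReal_ne_top]
      simp only [← hpt s hs0]
      rw [← h3, ← mul_assoc, ← ENNReal.ofReal_mul (by positivity),
        mul_inv_cancel₀ (by positivity), ENNReal.ofReal_one, one_mul]
    rw [h1, setLIntegral_congr_fun measurableSet_Ioi h2, lintegral_lintegral_swap]
    · rw [← lintegral_const_mul' _ _ hct]
      apply lintegral_congr
      intro v
      set R := Real.sqrt (1 + ‖v‖ ^ 2) with hR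
      have hR0 : 0 < R := Real.sqrt_pos.2 (by positivity)
      have h4 : ∫⁻ s in Ioi (0:ℝ), ENNReal.ofReal (s ^ k) * φ (s * R) =
          ENNReal.ofReal (1 / R ^ (k + 1)) * c := by
        have himg : (fun s : ℝ => s / R) '' Ioi (0:ℝ) = Ioi (0:ℝ) := by
          ext s
          constructor
          · rintro ⟨r, hr, rfl⟩
            exact div_pos hr hR0
          · intro hs
            exact ⟨s * R, mul_pos hs hR0, by field_simp⟩
        have hd : ∀ s ∈ Ioi (0:ℝ), HasDerivWithinAt (fun s : ℝ => s / R) (1 / R) (Ioi 0) s :=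
          fun s _ => ((hasDerivAt_id s).div_const R).hasDerivWithinAt
        have hinj : InjOn (fun s : ℝ => s / R) (Ioi (0:ℝ)) := by
          intro x _ y _ hxy
          simp only at hxy
          field_simp at hxy
          exact hxy
        rw [← himg, lintegral_image_eq_lintegral_abs_deriv_mul measurableSet_Ioi hd hinj, hc,
          ← lintegral_const_mul' _ _ ENNReal.ofReal_ne_top]
        apply setLIntegral_congr_fun measurableSet_Ioi
        intro s hs
        have hs0 : (0:ℝ) < s := hs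
        simp only
        rw [div_mul_cancel₀ _ hR0.ne', abs_of_pos (by positivity), ← mul_assoc, ← mul_assoc,
          ← ENNReal.ofReal_mul (by positivity), ← ENNReal.ofReal_mul (by positivity)]
        congr 2
        rw [div_pow]
        field_simp
        ring
      have h5 : ∀ s : ℝ, ENNReal.ofReal (s ^ k) * (F (up ((1 / R) • v)) * φ (s * R)) =
          F (up ((1 / R) • v)) * (ENNReal.ofReal (s ^ k) * φ (s * R)) := fun s => by ring
      simp only [h5]
      rw [lintegral_const_mul, h4]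
      · ring
      · exact ((measurable_id.pow_const k).ennreal_ofReal).mul
          (hφm.comp (measurable_id.mul_const R))
    · apply Measurable.aemeasurable
      have m1 : Measurable fun v : E k => Real.sqrt (1 + ‖v‖ ^ 2) :=
        (measurable_const.add (measurable_norm.pow_const 2)).sqrt
      refine Measurable.mul ?_ (Measurable.mul ?_ ?_)
      · exact (measurable_fst.pow_const k).ennreal_ofReal
      · exact (hF.comp (up_meas.comp ((measurable_const.div m1).smul measurable_id))).comp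
          measurable_snd
      · exact hφm.comp (measurable_fst.mul (m1.comp measurable_snd))
  have hC := subst_rad hk (fun y => F (up y)) (hF.comp up_meas)
  rw [← hC]
  have h9 := hA.symm.trans hB
  exact (ENNReal.mul_right_inj hc0 hct).1 h9

end Pool.Agent.W777.SP
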